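import Mathlib

set_option autoImplicit false

namespace Pool.Agent.Helper29

/-- `G` is RFRS: it is finitely generated and there is a descending chain of finite-index normal
subgroups starting at `G` with trivial intersection such that `s (i+1)` contains the kernel of
`s i → H₁(s i; ℚ)`, i.e. all `x` in `s i` with a positive power in `[s i, s i]`. -/
def IsRFRS (G : Type*) [Group G] : Prop :=
  Group.FG G ∧ ∃ s : ℕ → Subgroup G, s 0 = ⊤ ∧ (∀ i, (s i).Normal) ∧ (∀ i, (s i).FiniteIndex) ∧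
    (∀ i, s (i + 1) ≤ s i) ∧ (⨅ i, s i) = ⊥ ∧
    ∀ i, ∀ x ∈ s i, (∃ n : ℕ, 0 < n ∧ x ^ n ∈ ⁅s i, s i⁆) → x ∈ s (i + 1)

/-- Some finite-index subgroup is RFRS. -/
def VirtuallyRFRS (G : Type*) [Group G] : Prop :=
  ∃ H : Subgroup G, H.FiniteIndex ∧ IsRFRS H

end Pool.Agent.Helper29
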