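import Mathlib
import Pool.Agent.Helper29.RFRS.Defs
import Pool.Agent.Helper29.VRC.Basic
import Pool.Agent.Helper29.VRC.Facts

set_option autoImplicit false

namespace Pool.Agent.Helper29

section Acc

variable {G : Type*} [Group G]

/-- One step of an RFRS tower (no normality). -/
structure RStep (M M' : Subgroup G) : Prop where
  le : M' ≤ M
  fin : M'.FiniteIndex
  rat : ∀ x ∈ M, (∃ n : ℕ, 0 < n ∧ x ^ n ∈ ⁅M, M⁆) → x ∈ M'

/-- Subgroups reachable from `L` by finitely many steps. -/
inductive Acc' (L : Subgroup G) : Subgroup G → Prop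
  | base : Acc' L L
  | step {M M' : Subgroup G} : Acc' L M → RStep M M' → Acc' L M'

lemma Acc'.le {L M : Subgroup G} (h : Acc' L M) : M ≤ L := by
  induction h with
  | base => exact le_rfl
  | step _ hs ih => exact hs.le.trans ih

lemma Acc'.fin {L M : Subgroup G} (hL : L.FiniteIndex) (h : Acc' L M) : M.FiniteIndex := by
  cases h with
  | base => exact hL
  | step _ hs => exact hs.fin

lemma Acc'.trans {L M M' : Subgroup G} (h : Acc' L M) (h' : Acc' M M') : Acc' L M' := by
  induction h' with
  | base => exact h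
  | step _ hs ih => exact ih.step hs

lemma RStep.inf {M M' : Subgroup G} (K : Subgroup G) (hK : K.FiniteIndex) (h : RStep M M') :
    RStep (M ⊓ K) (M' ⊓ K) where
  le := inf_le_inf_right K h.le
  fin := by
    have := h.fin
    infer_instance
  rat := by
    rintro x ⟨hx, hxK⟩ ⟨n, hn, hxn⟩
    exact ⟨h.rat x hx ⟨n, hn, Subgroup.commutator_mono inf_le_left inf_le_left hxn⟩, hxK⟩

/-- Restriction of an accessible subgroup. -/
lemma Acc'.restrict {L M : Subgroup G} (h : Acc' L M) (K : Subgroup G) (hK : K.FiniteIndex) :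
    Acc' (L ⊓ K) (M ⊓ K) := by
  induction h with
  | base => exact Acc'.base
  | step _ hs ih => exact ih.step (hs.inf K hK)

lemma Acc'.restrict_le {L M : Subgroup G} (h : Acc' L M) {K : Subgroup G} (hK : K.FiniteIndex)
    (hKL : K ≤ L) : Acc' K (M ⊓ K) := by
  have := h.restrict K hK
  rwa [inf_eq_right.mpr hKL] at this

lemma Acc'.inf {L M M' : Subgroup G} (hL : L.FiniteIndex) (h : Acc' L M) (h' : Acc' L M') :
    Acc' L (M ⊓ M') := by
  have h1 := h'.restrict_le (h.fin hL) h.le
  rw [inf_comm]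
  exact h.trans h1

lemma RStep.normalCore {M M' : Subgroup G} (h : RStep M M') :
    RStep M.normalCore M'.normalCore where
  le := by
    intro x hx g
    exact h.le (hx g)
  fin := by
    have := h.fin
    infer_instance
  rat := by
    rintro x hx ⟨n, hn, hxn⟩ g
    have hn' : (⁅M.normalCore, M.normalCore⁆ : Subgroup G).Normal := inferInstance
    refine h.rat _ (hx g) ⟨n, hn, ?_⟩
    rw [conj_pow]
    exact Subgroup.commutator_mono M.normalCore_le M.normalCore_le (hn'.conj_mem _ hxn g)

/-- Normal cores of accessible subgroups of a normal subgroup are accessible. -/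
lemma Acc'.normalCore {L M : Subgroup G} (hL : L.Normal) (h : Acc' L M) :
    Acc' L M.normalCore := by
  induction h with
  | base => rw [Subgroup.normalCore_eq_self]; exact Acc'.base
  | step _ hs ih => exact ih.step hs.normalCore

lemma commutator_comap_le {G' : Type*} [Group G'] (h : G' →* G) (M : Subgroup G) {x : G'}
    (hx : x ∈ ⁅M.comap h, M.comap h⁆) : h x ∈ ⁅M, M⁆ := by
  have h1 : (⁅M.comap h, M.comap h⁆).map h ≤ ⁅M, M⁆ := by
    rw [Subgroup.map_commutator]
    exact Subgroup.commutator_mono (Subgroup.map_comap_le _ _) (Subgroup.map_comap_le _ _)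
  exact h1 ⟨x, hx, rfl⟩

lemma RStep.comap {G' : Type*} [Group G'] (h : G' →* G) {M M' : Subgroup G} (hs : RStep M M') :
    RStep (M.comap h) (M'.comap h) where
  le := Subgroup.comap_mono hs.le
  fin := finiteIndex_comap _ _ hs.fin
  rat := by
    rintro x hx ⟨n, hn, hxn⟩
    refine hs.rat (h x) hx ⟨n, hn, ?_⟩
    rw [← map_pow]
    exact commutator_comap_le h M hxn

lemma Acc'.comap {G' : Type*} [Group G'] (h : G' →* G) {L M : Subgroup G} (hs : Acc' L M) :
    Acc' (L.comap h) (M.comap h) := by
  induction hs with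
  | base => exact Acc'.base
  | step _ hs ih => exact ih.step (hs.comap h)

lemma commutator_map_subtype (K : Subgroup G) (M : Subgroup K) {x : K}
    (hx : (x : G) ∈ ⁅M.map K.subtype, M.map K.subtype⁆) : x ∈ ⁅M, M⁆ := by
  rw [← Subgroup.map_commutator] at hx
  obtain ⟨y, hy, hxy⟩ := hx
  have : y = x := Subtype.ext hxy
  rwa [← this]

/-- Pushing forward along the inclusion of a finite-index subgroup. -/
lemma RStep.map_subtype (K : Subgroup G) (hK : K.FiniteIndex) {M M' : Subgroup K}
    (hs : RStep M M') : RStep (M.map K.subtype) (M'.map K.subtype) where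
  le := Subgroup.map_mono hs.le
  fin := finiteIndex_map_subtype K hK _ hs.fin
  rat := by
    rintro _ ⟨x, hx, rfl⟩ ⟨n, hn, hxn⟩
    refine ⟨x, hs.rat x hx ⟨n, hn, ?_⟩, rfl⟩
    apply commutator_map_subtype K M
    simpa using hxn

lemma Acc'.map_subtype (K : Subgroup G) (hK : K.FiniteIndex) {L M : Subgroup K}
    (hs : Acc' L M) : Acc' (L.map K.subtype) (M.map K.subtype) := by
  induction hs with
  | base => exact Acc'.base
  | step _ hs ih => exact ih.step (hs.map_subtype K hK)

lemma Acc'.map_subtype_top (K : Subgroup G) (hK : K.FiniteIndex) {M : Subgroup K}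
    (hs : Acc' ⊤ M) : Acc' K (M.map K.subtype) := by
  have := hs.map_subtype K hK
  rwa [← MonoidHom.range_eq_map, Subgroup.range_subtype] at this

/-- A step given by a homomorphism to a torsion-free abelian group. -/
lemma RStep.of_int (M : Subgroup G) (hM : M.FiniteIndex) (f : M →* Multiplicative ℤ) (k : ℤ)
    (hk : k ≠ 0) :
    ∃ M' : Subgroup G, RStep M M' ∧ ∀ x (hx : x ∈ M), x ∈ M' ↔ k ∣ Multiplicative.toAdd (f ⟨x, hx⟩) := by
  let Z : Subgroup (Multiplicative ℤ) := AddSubgroup.toSubgroup (AddSubgroup.zmultiples k)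
  have hZmem : ∀ x : Multiplicative ℤ, x ∈ Z ↔ k ∣ Multiplicative.toAdd x := by
    intro x
    have : x ∈ Z ↔ Multiplicative.toAdd x ∈ AddSubgroup.zmultiples k := Iff.rfl
    rw [this, Int.mem_zmultiples_iff]
  have hZ : Z.FiniteIndex := by
    constructor
    have : Z.index = (AddSubgroup.zmultiples k).index := rfl
    rw [this, Int.index_zmultiples]
    simpa using hk
  have hmem : ∀ x (hx : x ∈ M), x ∈ (Z.comap f).map M.subtype ↔
      k ∣ Multiplicative.toAdd (f ⟨x, hx⟩) := by
    intro x hx
    rw [mem_map_subtype_iff]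
    constructor
    · rintro ⟨_, h⟩; exact (hZmem _).mp h
    · intro h; exact ⟨hx, (hZmem _).mpr h⟩
  refine ⟨(Z.comap f).map M.subtype, ⟨Subgroup.map_subtype_le _,
    finiteIndex_map_subtype M hM _ (finiteIndex_comap _ _ hZ), ?_⟩, hmem⟩
  rintro x hx ⟨n, hn, hxn⟩
  rw [hmem x hx]
  have h1 : (⟨x, hx⟩ : M) ^ n ∈ ⁅(⊤ : Subgroup M), (⊤ : Subgroup M)⁆ := by
    apply commutator_map_subtype M ⊤
    rw [← MonoidHom.range_eq_map, Subgroup.range_subtype]
    simpa using hxn
  have h2 : f ((⟨x, hx⟩ : M) ^ n) = 1 := by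
    have h3 : ⁅(⊤ : Subgroup M), (⊤ : Subgroup M)⁆ ≤ f.ker := by
      rw [Subgroup.commutator_le]
      intro a _ b _
      rw [MonoidHom.mem_ker, map_commutatorElement, commutatorElement_eq_one_iff_commute]
      exact Commute.all _ _
    exact h3 h1
  rw [map_pow] at h2
  have h4 : f ⟨x, hx⟩ = 1 := by
    by_contra hne
    exact mint_pow_ne_one hne hn h2
  rw [h4]
  simp

end Acc

section Chain

variable {G : Type*} [Group G]

/-- A normal chain reaching an accessible subgroup. -/
lemma Acc'.exists_chain {M : Subgroup G} (h : Acc' ⊤ M) :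
    ∃ t : ℕ → Subgroup G, t 0 = ⊤ ∧ (∀ i, (t i).Normal) ∧ (∀ i, RStep (t i) (t (i + 1))) ∧
      ∃ k, t k ≤ M := by
  have hkey : ∃ t : ℕ → Subgroup G, t 0 = ⊤ ∧ (∀ i, (t i).Normal) ∧
      (∀ i, RStep (t i) (t (i + 1))) ∧ ∃ k, t k = M.normalCore := by
    induction h with
    | base =>
      refine ⟨fun _ => ⊤, rfl, fun _ => inferInstance, fun _ => ?_, 0, ?_⟩
      · exact ⟨le_rfl, inferInstance, fun _ _ _ => trivial⟩
      · rw [Subgroup.normalCore_eq_self]
    | @step M M' _ hs ih =>
      obtain ⟨t, ht0, htn, hts, k, htk⟩ := ih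
      have htop : (⊤ : Subgroup G).FiniteIndex := inferInstance
      refine ⟨fun i => if i ≤ k then t i else M'.normalCore, ?_, ?_, ?_, k + 1, ?_⟩
      · simp [ht0]
      · intro i
        by_cases hi : i ≤ k
        · simp only [if_pos hi]; exact htn i
        · simp only [if_neg hi]; infer_instance
      · intro i
        by_cases hi : i + 1 ≤ k
        · simp only [if_pos hi, if_pos (show i ≤ k by omega)]; exact hts i
        · by_cases hi' : i ≤ k
          · have : i = k := by omega
            subst this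
            simp only [if_neg hi, le_refl, if_true, htk]
            exact hs.normalCore
          · simp only [if_neg hi, if_neg hi']
            exact ⟨le_rfl, hs.normalCore.fin, fun x hx _ => hx⟩
      · simp
  obtain ⟨t, h1, h2, h3, k, hk⟩ := hkey
  exact ⟨t, h1, h2, h3, k, by rw [hk]; exact M.normalCore_le⟩

/-- A finitely generated group in which accessible subgroups separate points is RFRS. -/
lemma isRFRS_of_acc (hfg : Group.FG G) [Countable G]
    (h : ∀ g : G, g ≠ 1 → ∃ M : Subgroup G, Acc' ⊤ M ∧ g ∉ M) : IsRFRS G := by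
  classical
  have hne : Nonempty G := ⟨1⟩
  obtain ⟨e, he⟩ := exists_surjective_nat G
  have hch : ∀ n : ℕ, ∃ t : ℕ → Subgroup G, t 0 = ⊤ ∧ (∀ i, (t i).Normal) ∧
      (∀ i, RStep (t i) (t (i + 1))) ∧ (e n ≠ 1 → ∃ k, e n ∉ t k) := by
    intro n
    by_cases hn : e n = 1
    · exact ⟨fun _ => ⊤, rfl, fun _ => inferInstance,
        fun _ => ⟨le_rfl, inferInstance, fun _ _ _ => trivial⟩, fun h => absurd hn h⟩
    · obtain ⟨M, hM, hnM⟩ := h (e n) hn
      obtain ⟨t, h1, h2, h3, k, hk⟩ := hM.exists_chain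
      exact ⟨t, h1, h2, h3, fun _ => ⟨k, fun h' => hnM (hk h')⟩⟩
  choose t ht0 htn hts htk using hch
  have htf : ∀ n i, (t n i).FiniteIndex := by
    intro n i
    cases i with
    | zero => rw [ht0]; infer_instance
    | succ i => exact (hts n i).fin
  refine ⟨hfg, fun i => ⨅ n ∈ Finset.range (i + 1), t n (i - n), ?_, ?_, ?_, ?_, ?_, ?_⟩
  · simp [ht0]
  · intro i
    refine ⟨fun x hx g => ?_⟩
    simp only [Subgroup.mem_iInf] at hx ⊢
    intro n hn
    exact (htn n (i - n)).conj_mem x (hx n hn) g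
  · intro i
    exact Subgroup.finiteIndex_iInf' _ (fun n _ => htf n (i - n))
  · intro i x hx
    simp only [Subgroup.mem_iInf, Finset.mem_range] at hx ⊢
    intro n hn
    have h1 := hx n (by omega)
    have h2 : i + 1 - n = (i - n) + 1 := by omega
    rw [h2] at h1
    exact (hts n (i - n)).le h1
  · rw [eq_bot_iff]
    intro x hx
    rw [Subgroup.mem_bot]
    obtain ⟨n, rfl⟩ := he x
    by_contra hne
    obtain ⟨k, hk⟩ := htk n hne
    rw [Subgroup.mem_iInf] at hx
    have h1 := hx (n + k)
    simp only [Subgroup.mem_iInf, Finset.mem_range] at h1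
    have h2 := h1 n (by omega)
    rw [Nat.add_sub_cancel_left] at h2
    exact hk h2
  · rintro i x hx ⟨m, hm, hxm⟩
    simp only [Subgroup.mem_iInf, Finset.mem_range] at hx ⊢
    intro n hn
    by_cases hni : n = i + 1
    · subst hni
      rw [Nat.sub_self, ht0]; trivial
    · have h2 : i + 1 - n = (i - n) + 1 := by omega
      rw [h2]
      refine (hts n (i - n)).rat x (hx n (by omega)) ⟨m, hm, ?_⟩
      have h3 : (⨅ n ∈ Finset.range (i + 1), t n (i - n)) ≤ t n (i - n) :=
        iInf₂_le n (Finset.mem_range.mpr (by omega))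
      exact Subgroup.commutator_mono h3 h3 hxm

/-- In an RFRS group, accessible subgroups separate points. -/
lemma IsRFRS.acc (h : IsRFRS G) (g : G) (hg : g ≠ 1) : ∃ M : Subgroup G, Acc' ⊤ M ∧ g ∉ M := by
  obtain ⟨_, s, hs0, _, hsf, hsle, hsb, hsr⟩ := h
  have hacc : ∀ i, Acc' ⊤ (s i) := by
    intro i
    induction i with
    | zero => rw [hs0]; exact Acc'.base
    | succ i ih => exact ih.step ⟨hsle i, hsf (i + 1), hsr i⟩
  by_contra hcon
  push Not at hcon
  apply hg
  have : g ∈ (⨅ i, s i) := by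
    rw [Subgroup.mem_iInf]
    exact fun i => hcon _ (hacc i)
  rwa [hsb, Subgroup.mem_bot] at this

end Chain

end Pool.Agent.Helper29
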