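import Mathlib
import Pool.Agent.Helper29.VRC.Basic
import Pool.Agent.Helper29.VRC.Facts
import Pool.Agent.Helper29.RFRS.Acc

set_option autoImplicit false

namespace Pool.Agent.Helper29

section RatHom

/-- The quotient of a finitely generated group by its rational kernel is free abelian. -/
lemma exists_ratHom (M : Type*) [Group M] [hM : Group.FG M] :
    ∃ (r : ℕ) (F : M →* Multiplicative (Fin r → ℤ)), Function.Surjective F ∧
      ∀ x, F x = 1 → ∃ n : ℕ, 0 < n ∧ x ^ n ∈ commutator M := by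
  have h1 : Group.FG (Abelianization M) :=
    Group.fg_of_surjective (f := Abelianization.of) (fun x => by
      induction x using QuotientGroup.induction_on with
      | H z => exact ⟨z, rfl⟩)
  have h2 : AddGroup.FG (Additive (Abelianization M)) := inferInstance
  have h3 : Module.Finite ℤ (Additive (Abelianization M)) := Module.Finite.iff_addGroup_fg.mpr h2
  let Q := Additive (Abelianization M) ⧸ Submodule.torsion ℤ (Additive (Abelianization M))
  have h4 : Module.Free ℤ Q := Module.free_of_finite_type_torsion_free'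
  let b := Module.finBasis ℤ Q
  let F₀ : Additive M →+ (Fin (Module.finrank ℤ Q) → ℤ) :=
    (b.equivFun.toLinearMap.comp (Submodule.mkQ _)).toAddMonoidHom.comp
      (MonoidHom.toAdditive Abelianization.of)
  refine ⟨Module.finrank ℤ Q, AddMonoidHom.toMultiplicativeRight F₀, ?_, ?_⟩
  · intro y
    obtain ⟨q, hq⟩ := b.equivFun.surjective (Multiplicative.toAdd y)
    obtain ⟨a, ha⟩ := Submodule.mkQ_surjective _ q
    obtain ⟨x, hx⟩ : ∃ x : M, Abelianization.of x = Additive.toMul a := by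
      induction (Additive.toMul a) using QuotientGroup.induction_on with
      | H z => exact ⟨z, rfl⟩
    refine ⟨x, ?_⟩
    apply Multiplicative.toAdd.injective
    show b.equivFun (Submodule.mkQ _ (Additive.ofMul (Abelianization.of x))) = _
    rw [hx]
    show b.equivFun (Submodule.mkQ _ a) = _
    rw [ha, hq]
  · intro x hx
    have h5 : b.equivFun (Submodule.mkQ _ (Additive.ofMul (Abelianization.of x))) = 0 :=
      congrArg Multiplicative.toAdd hx
    have h6 : Submodule.mkQ (Submodule.torsion ℤ (Additive (Abelianization M)))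
        (Additive.ofMul (Abelianization.of x)) = 0 :=
      b.equivFun.map_eq_zero_iff.mp h5
    rw [Submodule.mkQ_apply, Submodule.Quotient.mk_eq_zero, Submodule.mem_torsion_iff] at h6
    obtain ⟨a, ha⟩ := h6
    have ha0 : (a : ℤ) ≠ 0 := nonZeroDivisors.ne_zero a.2
    have ha' : (a : ℤ) • (Additive.ofMul (Abelianization.of x)) = 0 := ha
    have h7 : (Abelianization.of x) ^ (a : ℤ) = 1 := by
      have := congrArg Additive.toMul ha'
      simpa using this
    have h8 : (Abelianization.of x) ^ (a : ℤ).natAbs = 1 := by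
      rcases Int.natAbs_eq (a : ℤ) with h | h
      · rw [h, zpow_natCast] at h7; exact h7
      · rw [h, zpow_neg, zpow_natCast, inv_eq_one] at h7; exact h7
    refine ⟨(a : ℤ).natAbs, Int.natAbs_pos.mpr ha0, ?_⟩
    rw [← map_pow] at h8
    exact (QuotientGroup.eq_one_iff _).mp h8

end RatHom

section Functionals

variable {G : Type*} [Group G]

lemma commutator_subtype_mem (M : Subgroup G) (x : M) (n : ℕ) :
    x ^ n ∈ commutator M ↔ (x : G) ^ n ∈ ⁅M, M⁆ := by
  constructor
  · intro h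
    have h1 : M.subtype (x ^ n) ∈ (commutator M).map M.subtype := ⟨_, h, rfl⟩
    rw [commutator_def, Subgroup.map_commutator, ← MonoidHom.range_eq_map,
      Subgroup.range_subtype] at h1
    simpa using h1
  · intro h
    rw [commutator_def]
    apply commutator_map_subtype M ⊤
    rw [← MonoidHom.range_eq_map, Subgroup.range_subtype]
    simpa using h

/-- The coordinate functionals. -/
lemma exists_functionals [Group.FG G] (M : Subgroup G) [M.FiniteIndex] :
    ∃ (r : ℕ) (F : M →* Multiplicative (Fin r → ℤ)), Function.Surjective F ∧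
      ∀ x : M, F x = 1 → ∃ n : ℕ, 0 < n ∧ (x : G) ^ n ∈ ⁅M, M⁆ := by
  obtain ⟨r, F, h1, h2⟩ := exists_ratHom M
  refine ⟨r, F, h1, fun x hx => ?_⟩
  obtain ⟨n, hn, h3⟩ := h2 x hx
  exact ⟨n, hn, (commutator_subtype_mem M x n).mp h3⟩

/-- The `t`-th coordinate of a homomorphism to `ℤ ^ r`. -/
def coordHom {M : Type*} [Group M] {r : ℕ} (F : M →* Multiplicative (Fin r → ℤ)) (t : Fin r) :
    M →* Multiplicative ℤ :=
  (AddMonoidHom.toMultiplicative (Pi.evalAddMonoidHom (fun _ : Fin r => ℤ) t)).comp F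

lemma coordHom_apply {M : Type*} [Group M] {r : ℕ} (F : M →* Multiplicative (Fin r → ℤ))
    (t : Fin r) (x : M) :
    Multiplicative.toAdd (coordHom F t x) = (Multiplicative.toAdd (F x)) t := rfl

lemma exists_functional [Group.FG G] (M : Subgroup G) [M.FiniteIndex] (x : G) (hx : x ∈ M)
    (h : ¬ ∃ n : ℕ, 0 < n ∧ x ^ n ∈ ⁅M, M⁆) :
    ∃ f : M →* Multiplicative ℤ, f ⟨x, hx⟩ ≠ 1 := by
  obtain ⟨r, F, _, h2⟩ := exists_functionals M
  by_contra hcon
  push Not at hcon
  apply h
  apply h2 ⟨x, hx⟩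
  apply Multiplicative.toAdd.injective
  funext t
  have h3 := hcon (coordHom F t)
  exact congrArg Multiplicative.toAdd h3

lemma RStep.exists_functionals [Group.FG G] {M M' : Subgroup G} (hM : M.FiniteIndex)
    (hs : RStep M M') :
    ∃ (r : ℕ) (f : Fin r → (M →* Multiplicative ℤ)) (K : ℕ), 0 < K ∧
      ∀ x (hx : x ∈ M), (∀ t, (K : ℤ) ∣ Multiplicative.toAdd (f t ⟨x, hx⟩)) → x ∈ M' := by
  obtain ⟨r, F, hF, hker⟩ := Pool.Agent.Helper29.exists_functionals M
  let N : Subgroup (Multiplicative (Fin r → ℤ)) := (M'.subgroupOf M).map F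
  have hM' : M'.FiniteIndex := hs.fin
  have h1 : (M'.subgroupOf M).index ≠ 0 := by
    have : (M'.subgroupOf M).FiniteIndex := inferInstance
    exact this.index_ne_zero
  have h2 : N.index ≠ 0 := by
    have : N.index ∣ (M'.subgroupOf M).index := Subgroup.index_map_dvd _ hF
    intro h0
    rw [h0, zero_dvd_iff] at this
    exact h1 this
  refine ⟨r, coordHom F, N.index, Nat.pos_of_ne_zero h2, fun x hx hdiv => ?_⟩
  have h3 : F ⟨x, hx⟩ ∈ N := by
    choose z hz using hdiv
    have h4 : F ⟨x, hx⟩ = (Multiplicative.ofAdd z) ^ N.index := by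
      apply Multiplicative.toAdd.injective
      funext t
      have h5 := hz t
      rw [coordHom_apply] at h5
      rw [h5]
      simp
    rw [h4]
    exact Subgroup.pow_index_mem _ _
  obtain ⟨y, hy, hyx⟩ := h3
  have hyM : (y : G) ∈ M' := hy
  obtain ⟨n, hn, h6⟩ := hker (⟨x, hx⟩ * y⁻¹) (by rw [map_mul, map_inv, hyx, mul_inv_cancel])
  have h7 := hs.rat _ (⟨x, hx⟩ * y⁻¹ : M).2 ⟨n, hn, h6⟩
  have h8 : x = (((⟨x, hx⟩ * y⁻¹ : M)) : G) * y := by simp
  rw [h8]
  exact M'.mul_mem h7 hyM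

/-- Accessible subgroups separate points of `B` from `1`. -/
def AccSep (B : Subgroup G) : Prop :=
  ∀ x ∈ B, x ≠ 1 → ∃ M, Acc' B M ∧ x ∉ M

lemma AccSep.of_le {B B' : Subgroup G} (h : AccSep B) (hle : B' ≤ B) (hf : B'.FiniteIndex) :
    AccSep B' := by
  intro x hx hx1
  obtain ⟨M, hM, hxM⟩ := h x (hle hx) hx1
  exact ⟨M ⊓ B', hM.restrict_le hf hle, fun h' => hxM h'.1⟩

lemma IsRFRS.accSep {B : Subgroup G} (hB : B.FiniteIndex) (h : IsRFRS B) : AccSep B := by
  intro x hx hx1
  obtain ⟨M, hM, hxM⟩ := h.acc ⟨x, hx⟩ (fun h' => hx1 (congrArg Subtype.val h'))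
  refine ⟨M.map B.subtype, hM.map_subtype_top B hB, fun h' => ?_⟩
  rw [mem_map_subtype_iff] at h'
  obtain ⟨_, h2⟩ := h'
  exact hxM h2

lemma fg_of_finiteIndex (B : Subgroup G) [B.FiniteIndex] (h : Group.FG B) : Group.FG G := by
  classical
  -- generators of `B` and coset representatives
  obtain ⟨S, hS⟩ := (Group.fg_iff_subgroup_fg B).mp h
  let T : Set G := Set.range (fun q : G ⧸ B => q.out)
  have hT : T.Finite := Set.finite_range _
  refine ⟨⟨S ∪ hT.toFinset, ?_⟩⟩
  rw [eq_top_iff]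
  intro g _
  have h1 : (g : G ⧸ B) = ((g : G ⧸ B).out : G) := (QuotientGroup.out_eq' _).symm
  rw [eq_comm, QuotientGroup.eq] at h1
  have h2 : g = (g : G ⧸ B).out * ((g : G ⧸ B).out⁻¹ * g) := by group
  rw [h2]
  refine Subgroup.mul_mem _ (Subgroup.subset_closure ?_) ?_
  · simp [T]
  · have h3 : Subgroup.closure (S : Set G) ≤ Subgroup.closure (↑(S ∪ hT.toFinset) : Set G) :=
      Subgroup.closure_mono (by simp)
    apply h3
    rw [hS]
    exact h1

lemma VirtuallyRFRS.exists_accSep (h : VirtuallyRFRS G) :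
    Group.FG G ∧ ∃ B : Subgroup G, B.Normal ∧ B.FiniteIndex ∧ AccSep B := by
  obtain ⟨H, hH, hR⟩ := h
  refine ⟨fg_of_finiteIndex H hR.1, H.normalCore, inferInstance, inferInstance, ?_⟩
  exact (hR.accSep hH).of_le H.normalCore_le inferInstance

/-- A functional on an accessible subgroup not vanishing at `x`. -/
lemma AccSep.exists_functional [Group.FG G] {B : Subgroup G} (hB : B.FiniteIndex) (h : AccSep B)
    (x : G) (hx : x ∈ B) (hx1 : x ≠ 1) :
    ∃ M, Acc' B M ∧ ∃ hxM : x ∈ M, ∃ f : M →* Multiplicative ℤ, f ⟨x, hxM⟩ ≠ 1 := by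
  obtain ⟨M, hM, hxM⟩ := h x hx hx1
  induction hM with
  | base => exact absurd hx hxM
  | @step M M' hM hs ih =>
    by_cases hxM' : x ∈ M
    · have := hM.fin hB
      exact ⟨M, hM, hxM', Pool.Agent.Helper29.exists_functional M x hxM'
        (fun hn => hxM (hs.rat x hxM' hn))⟩
    · exact ih hxM'

lemma AccSep.torsionFree [Group.FG G] {B : Subgroup G} (hB : B.FiniteIndex) (h : AccSep B)
    (x : G) (hx : x ∈ B) (n : ℕ) (hn : 0 < n) (hxn : x ^ n = 1) : x = 1 := by
  by_contra hx1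
  obtain ⟨M, _, hxM, f, hf⟩ := h.exists_functional hB x hx hx1
  apply mint_pow_ne_one hf hn
  rw [← map_pow]
  have : (⟨x, hxM⟩ : M) ^ n = 1 := Subtype.ext hxn
  rw [this, map_one]

/-- Accessible separability of cyclic subgroups. -/
lemma AccSep.separable [Group.FG G] {B : Subgroup G} (hB : B.FiniteIndex) (h : AccSep B)
    (a b : G) (ha : a ∈ B) (hb : b ∈ B) (hab : ∀ l : ℤ, a ^ l * b ≠ 1) :
    ∃ A, Acc' B A ∧ ∀ l : ℤ, a ^ l * b ∉ A := by
  by_cases ha1 : a = 1
  · have hb1 : b ≠ 1 := by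
      have := hab 0
      simpa using this
    obtain ⟨M, hM, hbM⟩ := h b hb hb1
    refine ⟨M, hM, fun l => ?_⟩
    rw [ha1, one_zpow, one_mul]
    exact hbM
  obtain ⟨M, hM, haM, f, hf⟩ := h.exists_functional hB a ha ha1
  have hMf := hM.fin hB
  by_cases hbM : b ∈ M
  swap
  · refine ⟨M, hM, fun l hl => hbM ?_⟩
    have := M.mul_mem (M.inv_mem (M.zpow_mem haM l)) hl
    simpa using this
  set s : ℤ := Multiplicative.toAdd (f ⟨a, haM⟩) with hs
  set t : ℤ := Multiplicative.toAdd (f ⟨b, hbM⟩) with ht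
  have hs0 : s ≠ 0 := fun h0 => hf (Multiplicative.toAdd.injective (by simpa [hs] using h0))
  have hval : ∀ (l : ℤ) (hl : a ^ l * b ∈ M),
      Multiplicative.toAdd (f ⟨a ^ l * b, hl⟩) = l * s + t := by
    intro l hl
    have : (⟨a ^ l * b, hl⟩ : M) = ⟨a, haM⟩ ^ l * ⟨b, hbM⟩ := rfl
    rw [this, map_mul, map_zpow, toAdd_mul, toAdd_zpow, ← hs, ← ht]
    simp
  by_cases hst : s ∣ t
  · obtain ⟨u, hu⟩ := hst
    -- the only possible exponent is `-u`
    obtain ⟨M₂, hM₂, hy⟩ := h (a ^ (-u) * b) (B.mul_mem (B.zpow_mem ha _) hb) (hab (-u))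
    have hM₂f := hM₂.fin hB
    obtain ⟨e, he0, _, he⟩ := Subgroup.exists_pow_mem_of_index_ne_zero hM₂f.index_ne_zero a
    obtain ⟨M', hM', hmem⟩ := RStep.of_int M hMf f (s * e)
      (mul_ne_zero hs0 (by exact_mod_cast he0.ne'))
    refine ⟨M' ⊓ M₂, (hM.step hM').inf hB hM₂, fun l hl => ?_⟩
    obtain ⟨hl1, hl2⟩ := hl
    have hlM : a ^ l * b ∈ M := hM'.le hl1
    have h1 := (hmem _ hlM).mp hl1
    rw [hval, hu] at h1
    have h2 : (e : ℤ) ∣ l + u := by
      have : l * s + s * u = s * (l + u) := by ring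
      rw [this] at h1
      exact (mul_dvd_mul_iff_left hs0).mp h1
    obtain ⟨v, hv⟩ := h2
    have h3 : a ^ (l + u) ∈ M₂ := by
      rw [hv, zpow_mul, zpow_natCast]
      exact M₂.zpow_mem he v
    have h4 := M₂.mul_mem (M₂.inv_mem h3) hl2
    apply hy
    convert h4 using 1
    rw [← mul_assoc, ← zpow_neg, ← zpow_add]
    congr 2
    ring
  · obtain ⟨M', hM', hmem⟩ := RStep.of_int M hMf f s hs0
    refine ⟨M', hM.step hM', fun l hl => ?_⟩
    have hlM : a ^ l * b ∈ M := hM'.le hl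
    have h1 := (hmem _ hlM).mp hl
    rw [hval] at h1
    exact hst ((Int.dvd_add_right (Dvd.intro_left _ rfl)).mp h1)

/-- A virtually RFRS group has (VRC). -/
lemma AccSep.vrc [Group.FG G] {B : Subgroup G} [B.Normal] (hB : B.FiniteIndex) (h : AccSep B) :
    VRC G := by
  intro g
  by_cases hg : IsOfFinOrder g
  · refine isVirtualRetract_of_finite (QuotientGroup.mk' B) (fun k hk => ?_)
    have h1 : g ^ k ∈ B := (QuotientGroup.eq_one_iff _).mp hk
    have h2 : IsOfFinOrder (g ^ k) := hg.zpow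
    exact h.torsionFree hB _ h1 _ h2.orderOf_pos (pow_orderOf_eq_one _)
  · apply VS.isVirtualRetract
    have h0 : B.index ≠ 0 := hB.index_ne_zero
    have hgB : g ^ B.index ∈ B := Subgroup.pow_index_mem _ _
    have hg1 : g ^ B.index ≠ 1 := by
      intro h1
      exact hg (isOfFinOrder_iff_pow_eq_one.mpr ⟨_, Nat.pos_of_ne_zero h0, h1⟩)
    obtain ⟨M, hM, hxM, f, hf⟩ := h.exists_functional hB _ hgB hg1
    exact ⟨M, hM.fin hB, f, B.index, Nat.pos_of_ne_zero h0, hxM, hf⟩

/-- Accessible separability in the ambient group. -/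
lemma AccSep.separable' [Group.FG G] {B : Subgroup G} [hBn : B.Normal] (hB : B.FiniteIndex)
    (h : AccSep B) (a b : G) (hb : b ∉ Subgroup.zpowers a) :
    ∃ A, Acc' B A ∧ ∀ l : ℤ, a ^ l * b ∉ A := by
  by_cases hex : ∃ k : ℤ, a ^ k * b ∈ B
  swap
  · push Not at hex
    exact ⟨B, Acc'.base, hex⟩
  obtain ⟨k, hk⟩ := hex
  obtain ⟨e, he0, _, he⟩ := Subgroup.exists_pow_mem_of_index_ne_zero hB.index_ne_zero a
  -- the set of exponents of `a` in `B`
  let E : AddSubgroup ℤ :=
    { carrier := {k | a ^ k ∈ B}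
      zero_mem' := by simp [B.one_mem]
      add_mem' := fun {x y} hx hy => by
        show a ^ (x + y) ∈ B
        rw [zpow_add]; exact B.mul_mem hx hy
      neg_mem' := fun {x} hx => by
        show a ^ (-x) ∈ B
        rw [zpow_neg]; exact B.inv_mem hx }
  obtain ⟨m, hm⟩ := Int.subgroup_cyclic E
  have hE : ∀ k : ℤ, a ^ k ∈ B ↔ m ∣ k := by
    intro k
    have : a ^ k ∈ B ↔ k ∈ E := Iff.rfl
    rw [this, hm, ← AddSubgroup.zmultiples_eq_closure, Int.mem_zmultiples_iff]
  obtain ⟨A, hA, hA2⟩ := h.separable hB (a ^ m) (a ^ k * b) ((hE m).mpr dvd_rfl) hk (by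
    intro l hl
    apply hb
    rw [← mul_assoc, ← zpow_mul, ← zpow_add] at hl
    rw [← inv_eq_of_mul_eq_one_right hl]
    exact Subgroup.inv_mem _ (Subgroup.mem_zpowers_iff.mpr ⟨_, rfl⟩))
  refine ⟨A, hA, fun l hl => ?_⟩
  have h1 : a ^ l * b ∈ B := hA.le hl
  have h2 : a ^ (l - k) ∈ B := by
    have := B.mul_mem h1 (B.inv_mem hk)
    convert this using 1
    rw [zpow_sub]; group
  obtain ⟨u, hu⟩ := (hE _).mp h2
  apply hA2 u
  convert hl using 1
  rw [← mul_assoc, ← zpow_mul, ← zpow_add, ← hu]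
  congr 2
  ring

end Functionals

end Pool.Agent.Helper29
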