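import Mathlib
import Pool.Agent.Helper29.VRC.Basic
import Pool.Agent.Helper29.VRC.Free
import Pool.Agent.Helper29.VRC.Facts
import Pool.Agent.Helper29.RFRS.Acc
import Pool.Agent.Helper29.RFRS.Func

set_option autoImplicit false

namespace Pool.Agent.Helper29

section FreeRat

lemma freeGroup_rat {β : Type*} (x : FreeGroup β) (n : ℕ) (hn : 0 < n)
    (h : x ^ n ∈ commutator (FreeGroup β)) : x ∈ commutator (FreeGroup β) := by
  have h1 : (Abelianization.of x) ^ n = 1 := by
    rw [← map_pow]
    exact (QuotientGroup.eq_one_iff _).mpr h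
  let y : FreeAbelianGroup β := Additive.ofMul (Abelianization.of x)
  have h2 : n • y = 0 := by
    have := congrArg (Additive.ofMul) h1
    exact this
  have h3 : n • (FreeAbelianGroup.equivFinsupp β y) = 0 := by
    rw [← map_nsmul, h2, map_zero]
  have h4 : FreeAbelianGroup.equivFinsupp β y = 0 := by
    ext b
    have h5 := DFunLike.congr_fun h3 b
    simp only [Finsupp.coe_smul, Pi.smul_apply, nsmul_eq_mul, Finsupp.coe_zero,
      Pi.zero_apply, mul_eq_zero] at h5
    rcases h5 with h5 | h5
    · exact absurd (by exact_mod_cast h5) hn.ne'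
    · exact h5
  have h5 : y = 0 := (map_eq_zero_iff _ (FreeAbelianGroup.equivFinsupp β).injective).mp h4
  exact (QuotientGroup.eq_one_iff _).mp (show Abelianization.of x = 1 from h5)

lemma isFree_rat (R : Type*) [Group R] [IsFreeGroup R] (x : R) (n : ℕ) (hn : 0 < n)
    (h : x ^ n ∈ commutator R) : x ∈ commutator R := by
  let e := IsFreeGroup.toFreeGroup R
  have h1 : ∀ y : R, y ∈ commutator R ↔ e y ∈ commutator (FreeGroup (IsFreeGroup.Generators R)) := by
    intro y
    have h2 : (commutator R).map e.toMonoidHom = commutator _ := by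
      rw [commutator_def, Subgroup.map_commutator, ← MonoidHom.range_eq_map,
        MonoidHom.range_eq_top.mpr e.surjective, commutator_def]
    rw [← h2]
    constructor
    · intro hy; exact ⟨y, hy, rfl⟩
    · rintro ⟨z, hz, hzy⟩
      rwa [← e.injective hzy]
  rw [h1] at h ⊢
  rw [map_pow] at h
  exact freeGroup_rat _ n hn h

lemma free_rat {α : Type*} (R : Subgroup (FreeGroup α)) (x : FreeGroup α) (hx : x ∈ R) (n : ℕ)
    (hn : 0 < n) (h : x ^ n ∈ ⁅R, R⁆) : x ∈ ⁅R, R⁆ := by
  have h1 := isFree_rat R ⟨x, hx⟩ n hn ((commutator_subtype_mem R ⟨x, hx⟩ n).mpr h)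
  have h2 := (commutator_subtype_mem R ⟨x, hx⟩ 1).mp (by rwa [pow_one])
  rwa [pow_one] at h2

end FreeRat

section Derived

variable {G : Type*} [Group G]

/-- Iterated derived subgroups of a subgroup. -/
def dser (L : Subgroup G) : ℕ → Subgroup G
  | 0 => L
  | (k + 1) => ⁅dser L k, dser L k⁆

lemma dser_map {A : Type*} [Group A] (f : G →* A) (L : Subgroup G) (n : ℕ) :
    (dser L n).map f = dser (L.map f) n := by
  induction n with
  | zero => rfl
  | succ n ih => rw [dser, dser, Subgroup.map_commutator, ih]

lemma dser_mono {L L' : Subgroup G} (h : L ≤ L') (n : ℕ) : dser L n ≤ dser L' n := by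
  induction n with
  | zero => exact h
  | succ n ih => exact Subgroup.commutator_mono ih ih

lemma Acc'.dser_le {L M : Subgroup G} (h : Acc' L M) : ∃ n, dser L n ≤ M := by
  induction h with
  | base => exact ⟨0, le_rfl⟩
  | @step M M' _ hs ih =>
    obtain ⟨n, hn⟩ := ih
    refine ⟨n + 1, fun x hx => ?_⟩
    have h1 : x ∈ ⁅M, M⁆ := Subgroup.commutator_mono hn hn hx
    exact hs.rat x (Subgroup.commutator_le_self M h1) ⟨1, one_pos, by rwa [pow_one]⟩

/-- Kernels of maps from a free group with solvable image are accessible. -/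
lemma free_acc_ker {α A : Type*} [Group A] [Finite A] (ev : FreeGroup α →* A) (S : Subgroup A)
    (n : ℕ) (hS : dser S n = ⊥) : Acc' (S.comap ev) ev.ker := by
  have key : ∀ k, Acc' (S.comap ev) ((dser S k).comap ev) := by
    intro k
    induction k with
    | zero => exact Acc'.base
    | succ k ih =>
      refine ih.step ⟨Subgroup.comap_mono (Subgroup.commutator_le_self _),
        finiteIndex_comap _ _ inferInstance, ?_⟩
      rintro x hx ⟨n, hn, hxn⟩
      exact commutator_comap_le ev _ (free_rat _ x hx n hn hxn)
  have := key n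
  rwa [hS, MonoidHom.comap_bot] at this

end Derived

section Avoid

variable {G : Type*} [Group G]

lemma acc_avoid (S : Set G) (hS : S.Finite) (h : ∀ x ∈ S, ∃ M, Acc' (⊤ : Subgroup G) M ∧ x ∉ M) :
    ∃ M, Acc' (⊤ : Subgroup G) M ∧ ∀ x ∈ S, x ∉ M := by
  induction S, hS using Set.Finite.induction_on with
  | empty => exact ⟨⊤, Acc'.base, by simp⟩
  | @insert a S _ _ ih =>
    obtain ⟨M, hM, hMS⟩ := ih (fun x hx => h x (Set.mem_insert_of_mem _ hx))
    obtain ⟨M', hM', haM'⟩ := h a (Set.mem_insert _ _)
    refine ⟨M ⊓ M', hM.inf inferInstance hM', fun x hx hxM => ?_⟩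
    rcases hx with rfl | hx
    · exact haM' hxM.2
    · exact hMS x hx hxM.1

end Avoid

section FreeAcc

variable {α : Type*}

open scoped Classical in
lemma free_accSep_aux [Finite α] : ∀ (n : ℕ) (w : FreeGroup α), w.toWord.length = n → w ≠ 1 →
    ∃ M, Acc' (⊤ : Subgroup (FreeGroup α)) M ∧ w ∉ M := by
  intro n
  induction n using Nat.strong_induction_on with
  | _ n ih =>
    intro w hwn hw1
    -- avoid all shorter words
    have hSfin : {u : FreeGroup α | u ≠ 1 ∧ u.toWord.length < n}.Finite := by
      have h1 := (List.finite_length_lt (α × Bool) n).preimage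
        (f := FreeGroup.toWord (α := α)) FreeGroup.toWord_injective.injOn
      exact h1.subset (fun u hu => hu.2)
    obtain ⟨M₀, hM₀, hM₀S⟩ := acc_avoid _ hSfin (fun u hu => ih _ hu.2 u rfl hu.1)
    set M := M₀.normalCore with hMdef
    have hM : Acc' (⊤ : Subgroup (FreeGroup α)) M := hM₀.normalCore inferInstance
    have hMS : ∀ u : FreeGroup α, u ≠ 1 → u.toWord.length < n → u ∉ M := fun u h1 h2 h3 =>
      hM₀S u ⟨h1, h2⟩ (M₀.normalCore_le h3)
    by_cases hwM : w ∈ M
    swap
    · exact ⟨M, hM, hwM⟩
    have hMn : M.Normal := M₀.normalCore_normal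
    have hMf : M.FiniteIndex := hM.fin inferInstance
    set L := w.toWord with hL
    have hLred : FreeGroup.IsReduced L := FreeGroup.isReduced_toWord
    have hwL : FreeGroup.mk L = w := FreeGroup.mk_toWord
    have hn0 : 0 < n := by
      rw [← hwn]
      apply List.length_pos_iff.mpr
      intro h0
      apply hw1
      rw [← hwL, h0]; rfl
    -- the vertices of the path
    let v : ℕ → FreeGroup α ⧸ M := fun k => ((FreeGroup.mk (L.drop k) : FreeGroup α) : _ ⧸ M)
    have hvn : v n = 1 := by
      show ((FreeGroup.mk (L.drop n) : FreeGroup α) : _ ⧸ M) = 1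
      rw [← hwn, List.drop_length]; rfl
    have hv0 : v 0 = 1 := by
      show ((FreeGroup.mk (L.drop 0) : FreeGroup α) : _ ⧸ M) = 1
      rw [List.drop_zero, hwL]
      exact (QuotientGroup.eq_one_iff _).mpr hwM
    have hsimple : ∀ k k', k < k' → k' ≤ n → ¬ (k = 0 ∧ k' = n) → v k ≠ v k' := by
      intro k k' hk hk' hkk h
      have h1 : L.drop k = (L.drop k).take (k' - k) ++ L.drop k' := by
        have : L.drop k' = (L.drop k).drop (k' - k) := by
          rw [List.drop_drop]; congr 1; omega
        rw [this, List.take_append_drop]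
      have h2 : FreeGroup.mk (L.drop k) = FreeGroup.mk ((L.drop k).take (k' - k)) *
          FreeGroup.mk (L.drop k') := by
        conv_lhs => rw [h1]
        rw [FreeGroup.mul_mk]
      set u := FreeGroup.mk ((L.drop k).take (k' - k)) with hu
      have hured : FreeGroup.IsReduced ((L.drop k).take (k' - k)) :=
        (hLred.drop k).take (k' - k)
      have huw : u.toWord = (L.drop k).take (k' - k) := by
        rw [hu, FreeGroup.toWord_mk, hured.reduce_eq]
      have hulen : u.toWord.length = k' - k := by
        rw [huw, List.length_take, List.length_drop, hwn]; omega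
      have hu1 : u ≠ 1 := by
        intro h3
        rw [h3, FreeGroup.toWord_one, List.length_nil] at hulen
        omega
      apply hMS u hu1 (by omega)
      have h4 : ((u : FreeGroup α) : FreeGroup α ⧸ M) * v k' = v k' := by
        have : v k = ((u : FreeGroup α) : FreeGroup α ⧸ M) * v k' := by
          show ((FreeGroup.mk (L.drop k) : FreeGroup α) : _ ⧸ M) = _
          rw [h2]; rfl
        rw [← this, h]
      rw [mul_eq_right] at h4
      exact (QuotientGroup.eq_one_iff _).mp h4
    have hlt : n - 1 < L.length := by omega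
    -- the last letter
    set s := (L[n - 1]).1 with hs
    set b := (L[n - 1]).2 with hb
    set δ : FreeGroup α ⧸ M := if b then v n else v (n - 1) with hδ
    let Θ : FreeGroup α →* Equiv.Perm ((FreeGroup α ⧸ M) × Multiplicative ℤ) :=
      FreeGroup.lift (fun t => wperm
        (MulAction.toPermHom (FreeGroup α ⧸ M) (FreeGroup α ⧸ M) (FreeGroup.of t : FreeGroup α))
        (fun x => if t = s ∧ x = δ then Multiplicative.ofAdd 1 else 1))
    have hΘ : ∀ g, Equi (Θ g) := by
      intro g
      induction g using FreeGroup.induction_on with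
      | C1 => rw [map_one]; exact Equi.one
      | of s => simp only [Θ, FreeGroup.lift_apply_of]; exact wperm_equi _ _
      | inv_of s h => rw [map_inv]; exact h.inv
      | mul x y hx hy => rw [map_mul]; exact hx.mul hy
    have hΘ1 : ∀ g x z, (Θ g (x, z)).1 = (g : FreeGroup α ⧸ M) * x := by
      intro g
      induction g using FreeGroup.induction_on with
      | C1 => intro x z; rw [map_one]; simp
      | of s =>
        intro x z
        simp only [Θ, FreeGroup.lift_apply_of]; rfl
      | inv_of s h =>
        intro x z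
        have h1 := h (Θ (FreeGroup.of s)⁻¹ (x, z)).1 (Θ (FreeGroup.of s)⁻¹ (x, z)).2
        rw [Prod.mk.eta, map_inv] at h1
        have h2 : Θ (FreeGroup.of s) ((Θ (FreeGroup.of s))⁻¹ (x, z)) = (x, z) :=
          (Θ (FreeGroup.of s)).apply_symm_apply _
        rw [h2] at h1
        rw [map_inv]
        show _ = ((FreeGroup.of s : FreeGroup α) : FreeGroup α ⧸ M)⁻¹ * x
        rw [eq_inv_mul_iff_mul_eq]
        exact h1.symm
      | mul x y hx hy =>
        intro x' z
        rw [map_mul, Equiv.Perm.mul_apply, ← Prod.mk.eta (p := Θ y (x', z)), hx, hy]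
        rw [← mul_assoc]; rfl
    -- one step
    have hstepv : ∀ k, (hk : k < n) → v k = ((FreeGroup.mk [L[k]] : FreeGroup α) : _ ⧸ M) * v (k + 1) := by
      intro k hk
      show ((FreeGroup.mk (L.drop k) : FreeGroup α) : _ ⧸ M) = _
      have : L.drop k = [L[k]] ++ L.drop (k + 1) := by
        rw [List.drop_eq_getElem_cons (by omega)]; rfl
      rw [this, ← FreeGroup.mul_mk]; rfl
    -- the edge crossed at step `k`
    let E : ℕ → α × (FreeGroup α ⧸ M) := fun k =>
      if hk : k < n then ((L[k]).1, if (L[k]).2 then v (k + 1) else v k) else (s, δ)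
    have hstep : ∀ k, (hk : k < n) → ∀ z, Θ (FreeGroup.mk [L[k]]) (v (k + 1), z) =
        (v k, (if E k = (s, δ) then (if (L[k]).2 then Multiplicative.ofAdd 1 else
          Multiplicative.ofAdd (-1)) else 1) * z) := by
      intro k hk z
      have hE : E k = ((L[k]).1, if (L[k]).2 then v (k + 1) else v k) := dif_pos hk
      have hv := hstepv k hk
      rw [hE]
      rcases hLk : L[k] with ⟨t, b'⟩
      rw [hLk] at hv
      cases b' with
      | true =>
        have h1 : Θ (FreeGroup.mk [(t, true)]) = wperm _ _ := FreeGroup.lift_apply_of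
        rw [h1, wperm_apply]
        simp only [if_true, Prod.mk.injEq, and_true]
        rw [hv]; rfl
      | false =>
        have h1 : Θ (FreeGroup.mk [(t, false)]) = (wperm
            (MulAction.toPermHom (FreeGroup α ⧸ M) (FreeGroup α ⧸ M) (FreeGroup.of t : FreeGroup α))
            (fun x => if t = s ∧ x = δ then Multiplicative.ofAdd (1 : ℤ) else 1))⁻¹ := by
          have : FreeGroup.mk [(t, false)] = (FreeGroup.of t)⁻¹ := rfl
          rw [this, map_inv]
          congr 1
        rw [h1, Equiv.Perm.inv_eq_iff_eq, wperm_apply]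
        simp only [Bool.false_eq_true, if_false, Prod.mk.injEq]
        constructor
        · rw [hv]
          show v (k + 1) = ((FreeGroup.of t : FreeGroup α) : FreeGroup α ⧸ M) *
            (((FreeGroup.mk [(t, false)] : FreeGroup α) : _ ⧸ M) * v (k + 1))
          have : ((FreeGroup.mk [(t, false)] : FreeGroup α) : FreeGroup α ⧸ M) =
            ((FreeGroup.of t : FreeGroup α) : FreeGroup α ⧸ M)⁻¹ := rfl
          rw [this, mul_inv_cancel_left]
        · by_cases hc : t = s ∧ v k = δ
          · rw [if_pos hc, if_pos hc, ← mul_assoc, ← ofAdd_add]; simp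
          · rw [if_neg hc, if_neg hc]; simp
    have hElast : E (n - 1) = (s, δ) := by
      have : E (n - 1) = ((L[n - 1]).1, if (L[n - 1]).2 then v (n - 1 + 1) else v (n - 1)) :=
        dif_pos (by omega)
      rw [this, hδ, hs, hb]
      have : n - 1 + 1 = n := by omega
      rw [this]
    have hEne : ∀ k, k < n - 1 → E k ≠ (s, δ) := by
      intro k hk hEk
      have hE : E k = ((L[k]).1, if (L[k]).2 then v (k + 1) else v k) := dif_pos (by omega)
      rw [hE, Prod.mk.injEq] at hEk
      obtain ⟨h1, h2⟩ := hEk
      -- same letter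
      have hmix : (L[k]).2 = b ∨ (v k = v n ∧ v (k + 1) = v (n - 1) ∧ (L[k]).2 = !b) := by
        have hvk := hstepv k (by omega)
        have hvl := hstepv (n - 1) (by omega)
        have hn1 : n - 1 + 1 = n := by omega
        rw [hn1] at hvl
        have hLk : L[k] = (s, (L[k]).2) := by rw [← h1]
        have hLn : L[n - 1] = (s, b) := rfl
        rw [hLk] at hvk
        rw [hLn] at hvl
        have hinv : ((FreeGroup.mk [(s, false)] : FreeGroup α) : FreeGroup α ⧸ M) =
            ((FreeGroup.mk [(s, true)] : FreeGroup α) : FreeGroup α ⧸ M)⁻¹ := rfl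
        cases hb1 : b <;> cases hb2 : (L[k]).2
        · left; rfl
        · right
          rw [hb1] at hvl
          rw [hb2] at hvk
          rw [hδ, hb1, hb2] at h2
          simp only [if_true, Bool.false_eq_true, if_false] at h2
          refine ⟨?_, h2, rfl⟩
          rw [hvk, h2, hvl, hinv, mul_inv_cancel_left]
        · right
          rw [hb1] at hvl
          rw [hb2] at hvk
          rw [hδ, hb1, hb2] at h2
          simp only [if_true, Bool.false_eq_true, if_false] at h2
          refine ⟨h2, ?_, rfl⟩
          rw [hvl, ← h2, hvk, hinv, mul_inv_cancel_left]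
        · left; rfl
      rcases hmix with hbb | ⟨h3, h4, h5⟩
      · rw [hδ, hbb] at h2
        cases hb1 : b
        · rw [hb1] at h2
          simp only [Bool.false_eq_true, if_false] at h2
          exact hsimple k (n - 1) hk (by omega) (by omega) h2
        · rw [hb1] at h2
          simp only [if_true] at h2
          exact hsimple (k + 1) n (by omega) le_rfl (by omega) h2
      · have hk0 : k = 0 := by
          by_contra hk0
          exact hsimple k n (by omega) le_rfl (by omega) h3
        subst hk0
        have hn2 : n = 2 := by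
          by_contra hn2
          exact hsimple 1 (n - 1) (by omega) (by omega) (by omega) h4
        subst hn2
        have h6 := List.isChain_iff_getElem.mp hLred 0 (by omega)
        have h7 : (L[0]).1 = (L[0 + 1]).1 := h1
        have h8 := h6 h7
        have h9 : (L[0 + 1]).2 = b := rfl
        rw [h9, h5] at h8
        cases hb1 : b <;> rw [hb1] at h8 <;> simp at h8
    -- total weight
    have hpath : ∀ j, j + 1 ≤ n → Θ (FreeGroup.mk (L.drop (n - (j + 1)))) (1, 1) =
        (v (n - (j + 1)), if b then Multiplicative.ofAdd 1 else Multiplicative.ofAdd (-1)) := by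
      intro j
      induction j with
      | zero =>
        intro _
        have h1 : L.drop (n - (0 + 1)) = [L[n - 1]] ++ L.drop n := by
          rw [List.drop_eq_getElem_cons (by omega)]
          have : n - (0 + 1) + 1 = n := by omega
          rw [this]; rfl
        have h2 : L.drop n = [] := by rw [← hwn, List.drop_length]
        rw [h1, h2, List.append_nil, ← hvn]
        have h3 := hstep (n - 1) (by omega) 1
        have hn1 : n - 1 + 1 = n := by omega
        rw [hn1, if_pos hElast, mul_one] at h3
        exact h3
      | succ j ihj =>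
        intro hj
        have h1 : L.drop (n - (j + 1 + 1)) = [L[n - (j + 1 + 1)]] ++ L.drop (n - (j + 1)) := by
          rw [List.drop_eq_getElem_cons (by omega)]
          have : n - (j + 1 + 1) + 1 = n - (j + 1) := by omega
          rw [this]; rfl
        rw [h1, ← FreeGroup.mul_mk, map_mul, Equiv.Perm.mul_apply, ihj (by omega)]
        have h2 := hstep (n - (j + 1 + 1)) (by omega)
          (if b then Multiplicative.ofAdd 1 else Multiplicative.ofAdd (-1))
        have : n - (j + 1 + 1) + 1 = n - (j + 1) := by omega
        rw [this] at h2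
        rw [h2, if_neg (hEne _ (by omega)), one_mul]
    have hfinal := hpath (n - 1) (by omega)
    have hnn : n - (n - 1 + 1) = 0 := by omega
    rw [hnn, List.drop_zero, hwL, hv0] at hfinal
    obtain ⟨K, hK, hmemK, f, hf⟩ := stab_hom Θ (fun g ω a => (hΘ g).apply ω a)
      (1 : FreeGroup α ⧸ M)
    have hKM : K = M := by
      ext g
      rw [hmemK, hΘ1, mul_one]
      exact QuotientGroup.eq_one_iff _
    have hwK : w ∈ K := by rw [hKM]; exact hwM
    obtain ⟨M', hM', hM'mem⟩ := RStep.of_int K hK f 2 two_ne_zero
    rw [hKM] at hM'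
    refine ⟨M', hM.step hM', fun h => ?_⟩
    have h1 := (hM'mem w hwK).mp h
    rw [hf] at h1
    have h2 : (Θ w (1, 1)).2 = if b then Multiplicative.ofAdd 1 else Multiplicative.ofAdd (-1) := by
      rw [hfinal]
    have h3 : (2 : ℤ) ∣ Multiplicative.toAdd (Θ w (1, 1)).2 := h1
    rw [h2] at h3
    cases hb1 : b
    · rw [hb1] at h3; simp at h3
    · rw [hb1] at h3; simp at h3

/-- Free groups of finite rank: accessible subgroups separate points. -/
lemma free_accSep [Finite α] (w : FreeGroup α) (hw : w ≠ 1) :
    ∃ M, Acc' (⊤ : Subgroup (FreeGroup α)) M ∧ w ∉ M := by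
  classical
  exact free_accSep_aux _ w rfl hw

end FreeAcc

end Pool.Agent.Helper29
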