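import Mathlib
import Pool.Agent.Helper29.VRC.Basic
import Pool.Agent.Helper29.VRC.Free
import Pool.Agent.Helper29.VRC.Facts
import Pool.Agent.Helper29.VRC.Glue
import Pool.Agent.Helper29.RFRS.Acc
import Pool.Agent.Helper29.RFRS.Func
import Pool.Agent.Helper29.RFRS.FreeAcc

set_option autoImplicit false

namespace Pool.Agent.Helper29

open Monoid

/-- Nonabelian cocycles for a group action. -/
def IsCoc {Γ D A : Type*} [Group Γ] [MulAction Γ D] [Group A] (κ : Γ → D → A) : Prop :=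
  ∀ g g' δ, κ (g * g') δ = κ g (g' • δ) * κ g' δ

section General

variable {Γ D A : Type*} [Group Γ] [MulAction Γ D] [Group A] {κ : Γ → D → A}

lemma IsCoc.one (h : IsCoc κ) (δ : D) : κ 1 δ = 1 := by
  have := h 1 1 δ
  rw [mul_one, one_smul] at this
  exact (mul_eq_left.mp this.symm)

/-- The permutation representation of a cocycle. -/
def cocPerm (κ : Γ → D → A) (h : IsCoc κ) : Γ →* Equiv.Perm (D × A) :=
  MonoidHom.mk' (fun g => wperm (MulAction.toPerm g) (κ g)) (fun g g' => by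
    apply Equiv.ext
    rintro ⟨δ, x⟩
    rw [Equiv.Perm.mul_apply, wperm_apply, wperm_apply, wperm_apply, h g g' δ, mul_assoc]
    simp only [MulAction.toPerm_apply, mul_smul])

lemma cocPerm_apply (h : IsCoc κ) (g : Γ) (δ : D) (x : A) :
    cocPerm κ h g (δ, x) = (g • δ, κ g δ * x) := rfl

lemma mem_ker_cocPerm (h : IsCoc κ) (g : Γ) :
    g ∈ (cocPerm κ h).ker ↔ ∀ δ, g • δ = δ ∧ κ g δ = 1 := by
  rw [MonoidHom.mem_ker]
  constructor
  · intro hg δ
    have h1 := congrArg (fun σ : Equiv.Perm (D × A) => σ (δ, 1)) hg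
    simp only [cocPerm_apply, Equiv.Perm.one_apply, Prod.mk.injEq, mul_one] at h1
    exact h1
  · intro hg
    apply Equiv.ext
    rintro ⟨δ, x⟩
    rw [cocPerm_apply, (hg δ).1, (hg δ).2, one_mul]; rfl

/-- Trivialisation of a cocycle without holonomy. -/
lemma IsCoc.trivial (h : IsCoc κ) (h1 : ∀ (g : Γ) (δ : D), g • δ = δ → κ g δ = 1) :
    ∃ t : D → A, ∀ (g : Γ) (δ : D), κ g δ = t (g • δ) * (t δ)⁻¹ := by
  let r : D → D := fun δ => (Quotient.mk (MulAction.orbitRel Γ D) δ).out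
  have hr : ∀ δ, ∃ k : Γ, k • r δ = δ := by
    intro δ
    have h2 : (MulAction.orbitRel Γ D) (r δ) δ := Quotient.exact (Quotient.out_eq _)
    have h3 := (MulAction.orbitRel Γ D).symm h2
    exact h3
  choose k hk using hr
  have hrg : ∀ (g : Γ) (δ : D), r (g • δ) = r δ := by
    intro g δ
    show (Quotient.mk (MulAction.orbitRel Γ D) (g • δ)).out = _
    congr 1
    apply Quotient.sound
    exact ⟨g, rfl⟩
  refine ⟨fun δ => κ (k δ) (r δ), fun g δ => ?_⟩
  rw [eq_mul_inv_iff_mul_eq]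
  have h2 : κ (g * k δ) (r δ) = κ g δ * κ (k δ) (r δ) := by rw [h, hk]
  rw [← h2]
  show κ (g * k δ) (r δ) = κ (k (g • δ)) (r (g • δ))
  rw [hrg]
  have h3 : g * k δ = k (g • δ) * ((k (g • δ))⁻¹ * (g * k δ)) := by group
  have h4 : ((k (g • δ))⁻¹ * (g * k δ)) • r δ = r δ := by
    rw [mul_smul, mul_smul, hk, inv_smul_eq_iff]
    have := hk (g • δ)
    rw [hrg] at this
    exact this.symm
  rw [h3, h, h4, h1 _ _ h4, mul_one]

end General

section Push

variable {ι : Type*} [Nonempty ι] {C : Type*} [Group C] {G : ι → Type*} [∀ i, Group (G i)]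
  {φ : ∀ i, C →* G i}

lemma push_induction {p : PushoutI φ → Prop} (hof : ∀ i (g : G i), p (PushoutI.of i g))
    (hmul : ∀ x y, p x → p y → p (x * y)) (g : PushoutI φ) : p g := by
  induction g using PushoutI.induction_on with
  | of i g => exact hof i g
  | base h =>
    obtain ⟨i⟩ := (inferInstance : Nonempty ι)
    rw [← PushoutI.of_apply_eq_base φ i]
    exact hof i _
  | mul x y hx hy => exact hmul x y hx hy

lemma glueCoc (c : C) (hc : ∀ x, x ∈ Subgroup.zpowers c) {D A : Type*}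
    [MulAction (PushoutI φ) D] [Group A] (κ : ∀ i, G i → D → A)
    (hκ : ∀ i g g' δ, κ i (g * g') δ =
      κ i g ((PushoutI.of i g' : PushoutI φ) • δ) * κ i g' δ)
    (hcc : ∀ i k δ, κ i (φ i c) δ = κ k (φ k c) δ) :
    ∃ K : PushoutI φ → D → A, IsCoc K ∧ ∀ i g δ, K (PushoutI.of i g) δ = κ i g δ := by
  obtain ⟨Θ, hΘ1, hΘ2⟩ := glue c hc φ
    (fun i => (MulAction.toPermHom (PushoutI φ) D).comp (PushoutI.of i)) κ
    (fun i g g' δ => hκ i g g' δ)
    (fun i k => by
      rw [MonoidHom.comp_apply, MonoidHom.comp_apply, PushoutI.of_apply_eq_base,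
        PushoutI.of_apply_eq_base])
    (fun i k => funext (hcc i k))
  have h1 : ∀ g δ x, (Θ g (δ, x)).1 = g • δ := by
    intro g
    induction g using push_induction with
    | hof i g => intro δ x; rw [hΘ2]; rfl
    | hmul x y hx hy =>
      intro δ z
      rw [map_mul, Equiv.Perm.mul_apply, ← Prod.mk.eta (p := Θ y (δ, z)), hx, hy, mul_smul]
  refine ⟨fun g δ => (Θ g (δ, 1)).2, ?_, ?_⟩
  · intro g g' δ
    show (Θ (g * g') (δ, 1)).2 = _
    rw [map_mul, Equiv.Perm.mul_apply, ← Prod.mk.eta (p := Θ g' (δ, 1)), h1, (hΘ1 g).apply]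
  · intro i g δ
    show (Θ (PushoutI.of i g) (δ, 1)).2 = _
    rw [hΘ2, mul_one]

/-- Classes of points modulo the cyclic group generated by the image of `c`. -/
abbrev Cls (φ : ∀ i, C →* G i) (c : C) (D : Type*) [MulAction (PushoutI φ) D] : Type _ :=
  MulAction.orbitRel.Quotient (Subgroup.zpowers (PushoutI.base φ c)) D

/-- The class of a point. -/
def cls (φ : ∀ i, C →* G i) (c : C) {D : Type*} [MulAction (PushoutI φ) D] (δ : D) :
    Cls φ c D := Quotient.mk _ δ

lemma cls_smul (c : C) {D : Type*} [MulAction (PushoutI φ) D] (δ : D) :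
    cls φ c (PushoutI.base φ c • δ) = cls φ c δ := by
  apply Quotient.sound
  exact ⟨⟨PushoutI.base φ c, Subgroup.mem_zpowers _⟩, rfl⟩

lemma cls_eq (c : C) {D : Type*} [MulAction (PushoutI φ) D] (δ δ' : D)
    (h : cls φ c δ = cls φ c δ') : ∃ k : ℤ, (PushoutI.base φ c) ^ k • δ' = δ := by
  have h1 := Quotient.exact h
  obtain ⟨⟨g, hg⟩, h2⟩ := h1
  obtain ⟨k, rfl⟩ := Subgroup.mem_zpowers_iff.mp hg
  exact ⟨k, h2⟩

/-- The universal (free) cocycle. -/
lemma exists_freeCoc (c : C) (hc : ∀ x, x ∈ Subgroup.zpowers c) (D : Type*)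
    [MulAction (PushoutI φ) D] :
    ∃ K : PushoutI φ → D → FreeGroup (Cls φ c D × ι), IsCoc K ∧
      ∀ i (g : G i) δ, K (PushoutI.of i g) δ =
        FreeGroup.of (cls φ c ((PushoutI.of i g : PushoutI φ) • δ), i) *
          (FreeGroup.of (cls φ c δ, i))⁻¹ := by
  refine glueCoc c hc _ ?_ ?_
  · intro i g g' δ
    rw [map_mul, mul_smul]; group
  · intro i k δ
    rw [PushoutI.of_apply_eq_base, PushoutI.of_apply_eq_base, cls_smul, mul_inv_cancel,
      mul_inv_cancel]

/-- Cocycles killing elliptic holonomy factor through the free cocycle. -/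
lemma IsCoc.factor (c : C) {D A : Type*} [MulAction (PushoutI φ) D] [Group A]
    {K : PushoutI φ → D → FreeGroup (Cls φ c D × ι)} (hK : IsCoc K)
    (hK2 : ∀ i (g : G i) δ, K (PushoutI.of i g) δ =
        FreeGroup.of (cls φ c ((PushoutI.of i g : PushoutI φ) • δ), i) *
          (FreeGroup.of (cls φ c δ, i))⁻¹)
    {κ : PushoutI φ → D → A} (hκ : IsCoc κ)
    (h1 : ∀ i (g : G i) δ, (PushoutI.of i g : PushoutI φ) • δ = δ → κ (PushoutI.of i g) δ = 1)
    (h2 : ∀ δ, κ (PushoutI.base φ c) δ = 1) :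
    ∃ ev : FreeGroup (Cls φ c D × ι) →* A, ∀ g δ, κ g δ = ev (K g δ) := by
  have hex : ∀ i, ∃ t : D → A, ∀ (g : G i) δ,
      κ (PushoutI.of i g) δ = t ((PushoutI.of i g : PushoutI φ) • δ) * (t δ)⁻¹ := by
    intro i
    let act : MulAction (G i) D := MulAction.compHom D (PushoutI.of i : G i →* PushoutI φ)
    have hcoc : IsCoc (fun (g : G i) δ => κ (PushoutI.of i g) δ) := by
      intro g g' δ
      show κ (PushoutI.of i (g * g')) δ = _
      rw [map_mul, hκ]; rfl
    exact hcoc.trivial (h1 i)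
  choose t ht using hex
  have htc : ∀ i δ, t i (PushoutI.base φ c • δ) = t i δ := by
    intro i δ
    have h3 := ht i (φ i c) δ
    rw [PushoutI.of_apply_eq_base, h2] at h3
    exact (mul_inv_eq_one.mp h3.symm)
  have htk : ∀ i (k : ℤ) δ, t i ((PushoutI.base φ c) ^ k • δ) = t i δ := by
    intro i k
    induction k using Int.induction_on with
    | zero => intro δ; rw [zpow_zero, one_smul]
    | succ k ih =>
      intro δ
      rw [zpow_add_one, mul_smul, ih, htc]
    | pred k ih =>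
      intro δ
      rw [zpow_sub_one, mul_smul, ih]
      have := htc i ((PushoutI.base φ c)⁻¹ • δ)
      rw [smul_inv_smul] at this
      exact this.symm
  let T : Cls φ c D × ι → A := fun p => Quotient.lift (t p.2) (fun δ δ' h => by
    obtain ⟨⟨g, hg⟩, h3⟩ := h
    obtain ⟨k, rfl⟩ := Subgroup.mem_zpowers_iff.mp hg
    rw [← h3]
    exact htk p.2 k δ') p.1
  have hT : ∀ δ i, T (cls φ c δ, i) = t i δ := fun _ _ => rfl
  refine ⟨FreeGroup.lift T, fun g => ?_⟩
  induction g using push_induction with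
  | hof i g =>
    intro δ
    rw [hK2, map_mul, map_inv, FreeGroup.lift_apply_of, FreeGroup.lift_apply_of, hT, hT, ht]
  | hmul x y hx hy =>
    intro δ
    rw [hκ, hK, map_mul, hx, hy]

end Push

section Normal

variable {Γ : Type*} [Group Γ] (N : Subgroup Γ) [hN : N.Normal]

lemma smul_eq_of_mem {n : Γ} (hn : n ∈ N) (δ : Γ ⧸ N) : n • δ = δ := by
  induction δ using QuotientGroup.induction_on with
  | H z =>
    show ((n * z : Γ) : Γ ⧸ N) = (z : Γ ⧸ N)
    rw [eq_comm, QuotientGroup.eq]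
    have := hN.conj_mem n hn z⁻¹
    simpa [mul_assoc] using this

lemma mem_of_smul_eq {n : Γ} (δ : Γ ⧸ N) (h : n • δ = δ) : n ∈ N := by
  induction δ using QuotientGroup.induction_on with
  | H z =>
    have h1 : ((n * z : Γ) : Γ ⧸ N) = (z : Γ ⧸ N) := h
    rw [eq_comm, QuotientGroup.eq] at h1
    have := hN.conj_mem _ h1 z
    simpa [mul_assoc] using this

/-- The homomorphism on `N` given by a cocycle on `Γ ⧸ N` at a point. -/
def cocHom {A : Type*} [Group A] {κ : Γ → (Γ ⧸ N) → A} (h : IsCoc κ) (δ : Γ ⧸ N) : N →* A :=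
  MonoidHom.mk' (fun n => κ n δ) (fun n n' => by
    show κ ((n : Γ) * n') δ = _
    rw [h, smul_eq_of_mem N n'.2])

lemma cocHom_apply {A : Type*} [Group A] {κ : Γ → (Γ ⧸ N) → A} (h : IsCoc κ) (δ : Γ ⧸ N)
    (n : N) : cocHom N h δ n = κ n δ := rfl

end Normal

end Pool.Agent.Helper29
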