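import Mathlib
import Pool.Agent.Helper29.VRC.Basic
import Pool.Agent.Helper29.VRC.Free
import Pool.Agent.Helper29.VRC.Facts
import Pool.Agent.Helper29.VRC.Glue
import Pool.Agent.Helper29.RFRS.Acc
import Pool.Agent.Helper29.RFRS.Func
import Pool.Agent.Helper29.RFRS.FreeAcc
import Pool.Agent.Helper29.RFRS.Cocycle

set_option autoImplicit false

namespace Pool.Agent.Helper29

open Monoid

section Level

variable {ι : Type*} [Nonempty ι] {C : Type*} [Group C] {G : ι → Type*} [∀ i, Group (G i)]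
  {φ : ∀ i, C →* G i} (c : C)

/-- The twisted element `c ^ (-j (g δ)) g c ^ (j δ)`. -/
def eta {m : ℕ} {N : Subgroup (PushoutI φ)} (j : (PushoutI φ ⧸ N) → ZMod m) (i : ι) (g : G i)
    (δ : PushoutI φ ⧸ N) : G i :=
  φ i c ^ (-((j ((PushoutI.of i g : PushoutI φ) • δ)).val : ℤ)) * g * φ i c ^ ((j δ).val : ℤ)

variable {c}

lemma eta_mul {m : ℕ} {N : Subgroup (PushoutI φ)} (j : (PushoutI φ ⧸ N) → ZMod m) (i : ι)
    (g g' : G i) (δ : PushoutI φ ⧸ N) :
    eta c j i (g * g') δ = eta c j i g ((PushoutI.of i g' : PushoutI φ) • δ) * eta c j i g' δ := by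
  simp only [eta]
  rw [map_mul, mul_smul]
  group

lemma base_smul_eq (i : ι) {N : Subgroup (PushoutI φ)} (δ : PushoutI φ ⧸ N) :
    (PushoutI.of i (φ i c) : PushoutI φ) • δ = PushoutI.base φ c • δ := by
  rw [PushoutI.of_apply_eq_base]

lemma eta_c {m : ℕ} [NeZero m] {N : Subgroup (PushoutI φ)} {j : (PushoutI φ ⧸ N) → ZMod m}
    (hj : ∀ δ, j (PushoutI.base φ c • δ) = j δ + 1) (i : ι) (δ : PushoutI φ ⧸ N) :
    eta c j i (φ i c) δ = if (j δ).val + 1 < m then 1 else φ i c ^ m := by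
  simp only [eta]
  rw [base_smul_eq, hj, zmod_val_succ]
  have hlt := ZMod.val_lt (j δ)
  by_cases h : (j δ).val + 1 < m
  · rw [if_pos h, Nat.mod_eq_of_lt h]
    push_cast
    rw [neg_add, zpow_add, zpow_neg, zpow_neg, zpow_one]
    have h1 : Commute ((φ i c) ^ (((j δ).val : ℤ))) (φ i c) := (Commute.refl _).zpow_left _
    have h2 : Commute ((φ i c) ^ (((j δ).val : ℤ)))⁻¹ (φ i c)⁻¹ := h1.inv_inv
    rw [h2.eq]
    group
  · rw [if_neg h]
    have h' : (j δ).val + 1 = m := by omega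
    rw [h', Nat.mod_self]
    simp only [Nat.cast_zero, neg_zero, zpow_zero, one_mul]
    rw [zpow_natCast, ← pow_succ', h']

lemma eta_of_mem {m : ℕ} {N : Subgroup (PushoutI φ)} (j : (PushoutI φ ⧸ N) → ZMod m) (i : ι)
    (g : G i) (δ : PushoutI φ ⧸ N) (h : (PushoutI.of i g : PushoutI φ) • δ = δ) :
    eta c j i g δ = (φ i c ^ ((j δ).val : ℤ))⁻¹ * g * φ i c ^ ((j δ).val : ℤ) := by
  simp only [eta]
  rw [h, zpow_neg]

/-- The cocycle at a level attached to a compatible family of homomorphisms. -/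
lemma exists_levelCoc (hc : ∀ x, x ∈ Subgroup.zpowers c) {m : ℕ} [NeZero m]
    {N : Subgroup (PushoutI φ)} {j : (PushoutI φ ⧸ N) → ZMod m}
    (hj : ∀ δ, j (PushoutI.base φ c • δ) = j δ + 1) {A : Type*} [Group A]
    (P : ∀ i, G i →* A) (hP : ∀ i k, P i (φ i c ^ m) = P k (φ k c ^ m)) :
    ∃ κ : PushoutI φ → (PushoutI φ ⧸ N) → A, IsCoc κ ∧
      ∀ i (g : G i) δ, κ (PushoutI.of i g) δ = P i (eta c j i g δ) := by
  refine glueCoc c hc (fun i g δ => P i (eta c j i g δ)) ?_ ?_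
  · intro i g g' δ
    show P i _ = P i _ * P i _
    rw [eta_mul, map_mul]
  · intro i k δ
    show P i _ = P k _
    rw [eta_c hj, eta_c hj]
    by_cases h : (j δ).val + 1 < m
    · rw [if_pos h, if_pos h, map_one, map_one]
    · rw [if_neg h, if_neg h, hP i k]

/-- Existence of the coordinate function. -/
lemma exists_j (N : Subgroup (PushoutI φ)) [N.Normal] (m m₀ : ℕ) (hmm : m₀ ∣ m)
    (hm : ∀ k : ℤ, (PushoutI.base φ c) ^ k ∈ N ↔ (m : ℤ) ∣ k)
    (J : (PushoutI φ ⧸ N) → ZMod m₀) (hJ : ∀ δ, J (PushoutI.base φ c • δ) = J δ + 1)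
    (hJ1 : J (1 : PushoutI φ ⧸ N) = 0) :
    ∃ j : (PushoutI φ ⧸ N) → ZMod m, (∀ δ, j (PushoutI.base φ c • δ) = j δ + 1) ∧
      (∀ δ, ZMod.castHom hmm (ZMod m₀) (j δ) = J δ) ∧ j (1 : PushoutI φ ⧸ N) = 0 := by
  have hper : ∀ (k l : ℤ) (δ : PushoutI φ ⧸ N), (PushoutI.base φ c) ^ k • δ =
      (PushoutI.base φ c) ^ l • δ → (m : ℤ) ∣ k - l := by
    intro k l δ h
    rw [← hm]
    apply mem_of_smul_eq N δ
    rw [sub_eq_add_neg, add_comm, zpow_add, mul_smul, h, ← mul_smul, ← zpow_add]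
    simp
  have hJk : ∀ (k : ℤ) δ, J ((PushoutI.base φ c) ^ k • δ) = J δ + k := by
    intro k
    induction k using Int.induction_on with
    | zero => intro δ; simp
    | succ k ih =>
      intro δ
      rw [zpow_add_one, mul_smul, ih, hJ]; push_cast; ring
    | pred k ih =>
      intro δ
      rw [zpow_sub_one, mul_smul, ih]
      have := hJ ((PushoutI.base φ c)⁻¹ • δ)
      rw [smul_inv_smul] at this
      rw [this]; push_cast; ring
  choose Lft hL using fun z : ZMod m₀ => ZMod.castHom_surjective hmm z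
  let r : (PushoutI φ ⧸ N) → (PushoutI φ ⧸ N) := fun δ => (cls φ c δ).out
  have hr : ∀ δ, ∃ k : ℤ, (PushoutI.base φ c) ^ k • r δ = δ := by
    intro δ
    apply cls_eq
    exact (Quotient.out_eq _).symm
  choose k hk using hr
  have hrc : ∀ δ, r (PushoutI.base φ c • δ) = r δ := by
    intro δ
    show (cls φ c _).out = _
    rw [cls_smul]
  let j₁ : (PushoutI φ ⧸ N) → ZMod m := fun δ => (k δ : ZMod m) + Lft (J (r δ))
  have h1 : ∀ δ, j₁ (PushoutI.base φ c • δ) = j₁ δ + 1 := by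
    intro δ
    show ((k (PushoutI.base φ c • δ) : ℤ) : ZMod m) + Lft (J (r _)) =
      (k δ : ZMod m) + Lft (J (r δ)) + 1
    rw [hrc]
    have h2 : (m : ℤ) ∣ (k δ + 1) - k (PushoutI.base φ c • δ) := by
      apply hper _ _ (r δ)
      have h3 := hk (PushoutI.base φ c • δ)
      rw [hrc] at h3
      rw [h3, add_comm, zpow_add, zpow_one, mul_smul, hk]
    have h4 : ((k (PushoutI.base φ c • δ) : ℤ) : ZMod m) = ((k δ + 1 : ℤ) : ZMod m) := by
      rw [ZMod.intCast_eq_intCast_iff_dvd_sub]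
      exact h2
    rw [h4]; push_cast; ring
  have h2 : ∀ δ, ZMod.castHom hmm (ZMod m₀) (j₁ δ) = J δ := by
    intro δ
    show ZMod.castHom hmm (ZMod m₀) ((k δ : ZMod m) + Lft (J (r δ))) = J δ
    rw [map_add, hL, map_intCast]
    conv_rhs => rw [← hk δ, hJk]
    ring
  refine ⟨fun δ => j₁ δ - j₁ 1, fun δ => ?_, fun δ => ?_, sub_self _⟩
  · show j₁ _ - j₁ 1 = j₁ δ - j₁ 1 + 1
    rw [h1]; ring
  · show ZMod.castHom hmm (ZMod m₀) (j₁ δ - j₁ 1) = J δ
    rw [map_sub, h2, h2, hJ1, sub_zero]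

/-- The projection between levels. -/
def lproj {N N₀ : Subgroup (PushoutI φ)} [N.Normal] [N₀.Normal] (h : N ≤ N₀) :
    (PushoutI φ ⧸ N) →* (PushoutI φ ⧸ N₀) := QuotientGroup.map N N₀ (MonoidHom.id _) h

lemma lproj_smul {N N₀ : Subgroup (PushoutI φ)} [N.Normal] [N₀.Normal] (h : N ≤ N₀)
    (g : PushoutI φ) (δ : PushoutI φ ⧸ N) : lproj h (g • δ) = g • lproj h δ := by
  induction δ using QuotientGroup.induction_on with
  | H z => rfl

/-- Comparison of cocycles at two levels. -/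
lemma level_compare {m m₀ : ℕ} [NeZero m] [NeZero m₀] (hmm : m₀ ∣ m)
    {N N₀ : Subgroup (PushoutI φ)} [N.Normal] [N₀.Normal] (hle : N ≤ N₀)
    {j : (PushoutI φ ⧸ N) → ZMod m} {j₀ : (PushoutI φ ⧸ N₀) → ZMod m₀}
    (hjj : ∀ δ, ZMod.castHom hmm (ZMod m₀) (j δ) = j₀ (lproj hle δ))
    {A A₀ : Type*} [Group A] [Group A₀] {P : ∀ i, G i →* A} {P₀ : ∀ i, G i →* A₀}
    (B : A →* A₀) (hB : ∀ i g, B (P i g) = P₀ i g) (hP₀ : ∀ i, P₀ i (φ i c ^ m₀) = 1)
    {κ : PushoutI φ → (PushoutI φ ⧸ N) → A} (hκ : IsCoc κ)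
    (hκ2 : ∀ i (g : G i) δ, κ (PushoutI.of i g) δ = P i (eta c j i g δ))
    {κ₀ : PushoutI φ → (PushoutI φ ⧸ N₀) → A₀} (hκ₀ : IsCoc κ₀)
    (hκ₀2 : ∀ i (g : G i) δ, κ₀ (PushoutI.of i g) δ = P₀ i (eta c j₀ i g δ)) :
    ∀ γ δ, B (κ γ δ) = κ₀ γ (lproj hle δ) := by
  have hval : ∀ δ, (m₀ : ℤ) ∣ ((j δ).val : ℤ) - ((j₀ (lproj hle δ)).val : ℤ) := by
    intro δ
    rw [← ZMod.intCast_eq_intCast_iff_dvd_sub]
    simp only [Int.cast_natCast, ZMod.natCast_val]
    rw [← hjj δ]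
    simp
  have hpow : ∀ i (a b : ℤ), (m₀ : ℤ) ∣ a - b → P₀ i (φ i c ^ a) = P₀ i (φ i c ^ b) := by
    intro i a b ⟨u, hu⟩
    have : a = b + m₀ * u := by linarith
    have h2 : P₀ i ((φ i c ^ m₀) ^ u) = 1 := by rw [map_zpow, hP₀, one_zpow]
    rw [this, zpow_add, map_mul, zpow_mul, zpow_natCast, h2, mul_one]
  intro γ
  induction γ using push_induction with
  | hof i g =>
    intro δ
    rw [hκ2, hB, hκ₀2]
    simp only [eta]
    rw [← lproj_smul]
    rw [map_mul, map_mul, map_mul, map_mul, hpow i _ _ (hval δ)]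
    rw [zpow_neg, zpow_neg, map_inv, map_inv, hpow i _ _ (hval _)]
  | hmul x y hx hy =>
    intro δ
    rw [hκ, map_mul, hx, hy, hκ₀, lproj_smul]

/-- The period of the generator modulo a finite-index subgroup. -/
lemma exists_period (N : Subgroup (PushoutI φ)) [N.FiniteIndex] :
    ∃ m : ℕ, 0 < m ∧ ∀ k : ℤ, (PushoutI.base φ c) ^ k ∈ N ↔ (m : ℤ) ∣ k := by
  let E : AddSubgroup ℤ :=
    { carrier := {k | (PushoutI.base φ c) ^ k ∈ N}
      zero_mem' := by simp [N.one_mem]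
      add_mem' := fun {x y} hx hy => by
        show (PushoutI.base φ c) ^ (x + y) ∈ N
        rw [zpow_add]; exact N.mul_mem hx hy
      neg_mem' := fun {x} hx => by
        show (PushoutI.base φ c) ^ (-x) ∈ N
        rw [zpow_neg]; exact N.inv_mem hx }
  obtain ⟨m, hm⟩ := Int.subgroup_cyclic E
  have hE : ∀ k : ℤ, (PushoutI.base φ c) ^ k ∈ N ↔ m ∣ k := by
    intro k
    have : (PushoutI.base φ c) ^ k ∈ N ↔ k ∈ E := Iff.rfl
    rw [this, hm, ← AddSubgroup.zmultiples_eq_closure, Int.mem_zmultiples_iff]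
  refine ⟨m.natAbs, ?_, fun k => by rw [hE, Int.natAbs_dvd]⟩
  obtain ⟨e, he0, _, he⟩ := Subgroup.exists_pow_mem_of_index_ne_zero
    (inferInstance : N.FiniteIndex).index_ne_zero (PushoutI.base φ c)
  rw [Int.natAbs_pos]
  rintro rfl
  rw [← zpow_natCast, hE, zero_dvd_iff] at he
  omega

end Level

end Pool.Agent.Helper29
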