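import Mathlib
import Pool.Agent.Helper29.VRC.Basic
import Pool.Agent.Helper29.VRC.Free
import Pool.Agent.Helper29.VRC.Facts
import Pool.Agent.Helper29.VRC.Glue
import Pool.Agent.Helper29.RFRS.Acc
import Pool.Agent.Helper29.RFRS.Func
import Pool.Agent.Helper29.RFRS.FreeAcc
import Pool.Agent.Helper29.RFRS.Cocycle
import Pool.Agent.Helper29.RFRS.Level

set_option autoImplicit false

namespace Pool.Agent.Helper29

open Monoid

lemma IsCoc.pow {Γ D A : Type*} [Group Γ] [MulAction Γ D] [Group A] {κ : Γ → D → A}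
    (h : IsCoc κ) (g : Γ) (δ : D) (hg : g • δ = δ) (t : ℕ) : κ (g ^ t) δ = κ g δ ^ t := by
  have hgt : ∀ t : ℕ, g ^ t • δ = δ := by
    intro t
    induction t with
    | zero => rw [pow_zero, one_smul]
    | succ t ih => rw [pow_succ, mul_smul, hg, ih]
  induction t with
  | zero => rw [pow_zero, pow_zero, h.one]
  | succ t ih => rw [pow_succ, pow_succ, h, hg, ih]

section Fam

variable {ι : Type*} [DecidableEq ι] {C : Type*} [Group C] {G : ι → Type*} [∀ i, Group (G i)]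
  {φ : ∀ i, C →* G i} (Ω : Type*) [MulAction (PushoutI φ) Ω] (i₀ : ι) (B : Subgroup (G i₀))
  [B.Normal]

/-- The finite family of homomorphisms. -/
def finFam : ∀ i, G i →* ((G i₀ ⧸ B) × Equiv.Perm Ω) :=
  Function.update (fun i => (MonoidHom.inr (G i₀ ⧸ B) (Equiv.Perm Ω)).comp
    ((MulAction.toPermHom (PushoutI φ) Ω).comp (PushoutI.of i))) i₀
    ((MonoidHom.inl (G i₀ ⧸ B) (Equiv.Perm Ω)).comp (QuotientGroup.mk' B))

lemma finFam_self (g : G i₀) : finFam (φ := φ) Ω i₀ B i₀ g = ((g : G i₀ ⧸ B), 1) := by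
  unfold finFam
  rw [Function.update_self]; rfl

lemma finFam_ne {i : ι} (hi : i ≠ i₀) (g : G i) : finFam (φ := φ) Ω i₀ B i g =
    (1, MulAction.toPermHom (PushoutI φ) Ω (PushoutI.of i g)) := by
  unfold finFam
  rw [Function.update_of_ne hi]; rfl

variable {Ω i₀ B}

lemma finFam_one {N : Subgroup (PushoutI φ)} (hN : N ≤ (MulAction.toPermHom (PushoutI φ) Ω).ker)
    (hB : ∀ g : G i₀, (PushoutI.of i₀ g : PushoutI φ) ∈ N → g ∈ B) (i : ι) (g : G i)
    (hg : (PushoutI.of i g : PushoutI φ) ∈ N) :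
    finFam (φ := φ) Ω i₀ B i g = 1 := by
  by_cases hi : i = i₀
  · subst hi
    rw [finFam_self, (QuotientGroup.eq_one_iff g).mpr (hB g hg)]; rfl
  · rw [finFam_ne _ _ _ hi, MonoidHom.mem_ker.mp (hN hg)]; rfl

end Fam

section ZFam

variable {ι : Type*} [DecidableEq ι] {C : Type*} [Group C] {G : ι → Type*} [∀ i, Group (G i)]
  {φ : ∀ i, C →* G i} {Ω : Type*} [MulAction (PushoutI φ) Ω] {i₀ : ι} {B : Subgroup (G i₀)}
  [hBn : B.Normal]

lemma out_mem (g : G i₀) (q : G i₀ ⧸ B) : (g • q).out⁻¹ * g * q.out ∈ B := by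
  have h1 : ((g • q).out : G i₀ ⧸ B) = g • q := QuotientGroup.out_eq' _
  have h2 : g • q = ((g * q.out : G i₀) : G i₀ ⧸ B) := by
    conv_lhs => rw [← QuotientGroup.out_eq' q]
    rfl
  rw [mul_assoc, ← QuotientGroup.eq]
  exact h1.trans h2

/-- The induced representation of `G i₀` attached to a functional on `B`. -/
noncomputable def actB (φ : ∀ i, C →* G i) (f : B →* Multiplicative ℤ) (v : Ω → ℤ) :
    G i₀ →* Equiv.Perm (((G i₀ ⧸ B) × Ω) × Multiplicative ℤ) :=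
  MonoidHom.mk' (fun g => wperm ((MulAction.toPerm g).prodCongr (Equiv.refl Ω))
    (fun x => Multiplicative.ofAdd (v x.2 * extF f ((g • x.1).out⁻¹ * g * x.1.out))))
    (fun g g' => by
      apply Equiv.ext
      rintro ⟨⟨q, ω⟩, z⟩
      rw [Equiv.Perm.mul_apply, wperm_apply, wperm_apply, wperm_apply]
      have h1 : ((g * g') • q).out⁻¹ * (g * g') * q.out =
          ((g • (g' • q)).out⁻¹ * g * (g' • q).out) * ((g' • q).out⁻¹ * g' * q.out) := by
        rw [mul_smul]; group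
      refine Prod.ext ?_ ?_
      · refine Prod.ext ?_ rfl
        show (g * g') • q = g • (g' • q)
        exact mul_smul _ _ _
      · show Multiplicative.ofAdd (v ω * extF f (((g * g') • q).out⁻¹ * (g * g') * q.out)) * z =
          Multiplicative.ofAdd (v ω * extF f ((g • (g' • q)).out⁻¹ * g * (g' • q).out)) *
          (Multiplicative.ofAdd (v ω * extF f ((g' • q).out⁻¹ * g' * q.out)) * z)
        rw [h1, extF_mul f (out_mem g _) (out_mem g' _), mul_add, ofAdd_add, mul_assoc])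

lemma actB_apply (f : B →* Multiplicative ℤ) (v : Ω → ℤ) (g : G i₀) (q : G i₀ ⧸ B) (ω : Ω)
    (z : Multiplicative ℤ) : actB φ f v g ((q, ω), z) = ((g • q, ω),
      Multiplicative.ofAdd (v ω * extF f ((g • q).out⁻¹ * g * q.out)) * z) := rfl

/-- The representation on the other factors. -/
def actO {w : PushoutI φ → Ω → Multiplicative ℤ} (hw : IsCoc w) (Q : Type*) (s : Q → ℤ) :
    PushoutI φ →* Equiv.Perm ((Q × Ω) × Multiplicative ℤ) :=
  MonoidHom.mk' (fun g => wperm ((Equiv.refl Q).prodCongr (MulAction.toPerm g))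
    (fun x => Multiplicative.ofAdd (s x.1 * Multiplicative.toAdd (w g x.2))))
    (fun g g' => by
      apply Equiv.ext
      rintro ⟨⟨q, ω⟩, z⟩
      rw [Equiv.Perm.mul_apply, wperm_apply, wperm_apply, wperm_apply]
      refine Prod.ext ?_ ?_
      · refine Prod.ext rfl ?_
        show (g * g') • ω = g • (g' • ω)
        exact mul_smul _ _ _
      · show Multiplicative.ofAdd (s q * Multiplicative.toAdd (w (g * g') ω)) * z =
          Multiplicative.ofAdd (s q * Multiplicative.toAdd (w g (g' • ω))) *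
          (Multiplicative.ofAdd (s q * Multiplicative.toAdd (w g' ω)) * z)
        rw [hw, toAdd_mul, mul_add, ofAdd_add, mul_assoc])

lemma actO_apply {w : PushoutI φ → Ω → Multiplicative ℤ} (hw : IsCoc w) (Q : Type*) (s : Q → ℤ)
    (g : PushoutI φ) (q : Q) (ω : Ω) (z : Multiplicative ℤ) : actO hw Q s g ((q, ω), z) =
      ((q, g • ω), Multiplicative.ofAdd (s q * Multiplicative.toAdd (w g ω)) * z) := rfl

lemma actB_equi (f : B →* Multiplicative ℤ) (v : Ω → ℤ) (g : G i₀) : Equi (actB φ f v g) := by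
  rintro ⟨q, ω⟩ a b
  rw [actB_apply, actB_apply]
  exact Prod.ext rfl (mul_assoc _ _ _).symm

lemma actO_equi {w : PushoutI φ → Ω → Multiplicative ℤ} (hw : IsCoc w) (Q : Type*) (s : Q → ℤ)
    (g : PushoutI φ) : Equi (actO hw Q s g) := by
  rintro ⟨q, ω⟩ a b
  rw [actO_apply, actO_apply]
  exact Prod.ext rfl (mul_assoc _ _ _).symm

/-- The family of representations with values in weighted permutations. -/
noncomputable def zFam {w : PushoutI φ → Ω → Multiplicative ℤ} (hw : IsCoc w)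
    (f : B →* Multiplicative ℤ) (v : Ω → ℤ) (s : (G i₀ ⧸ B) → ℤ) :
    ∀ i, G i →* Equiv.Perm (((G i₀ ⧸ B) × Ω) × Multiplicative ℤ) :=
  Function.update (fun i => (actO hw (G i₀ ⧸ B) s).comp (PushoutI.of i)) i₀ (actB φ f v)

lemma zFam_self {w : PushoutI φ → Ω → Multiplicative ℤ} (hw : IsCoc w)
    (f : B →* Multiplicative ℤ) (v : Ω → ℤ) (s : (G i₀ ⧸ B) → ℤ) (g : G i₀) :
    zFam hw f v s i₀ g = actB φ f v g := by
  unfold zFam
  rw [Function.update_self]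

lemma zFam_ne {w : PushoutI φ → Ω → Multiplicative ℤ} (hw : IsCoc w)
    (f : B →* Multiplicative ℤ) (v : Ω → ℤ) (s : (G i₀ ⧸ B) → ℤ) {i : ι} (hi : i ≠ i₀) (g : G i) :
    zFam hw f v s i g = actO hw (G i₀ ⧸ B) s (PushoutI.of i g) := by
  unfold zFam
  rw [Function.update_of_ne hi]; rfl

end ZFam

section Extend

variable {ι : Type*} [Nonempty ι] [DecidableEq ι] {C : Type*} [Group C] {G : ι → Type*}
  [∀ i, Group (G i)] {φ : ∀ i, C →* G i} {c : C}

lemma of_conj_mem {N : Subgroup (PushoutI φ)} [hN : N.Normal] (i : ι) (g x : G i)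
    (hg : (PushoutI.of i g : PushoutI φ) ∈ N) :
    (PushoutI.of i (x⁻¹ * g * x) : PushoutI φ) ∈ N := by
  rw [map_mul, map_mul, map_inv]
  have := hN.conj_mem _ hg (PushoutI.of i x)⁻¹
  rwa [inv_inv] at this

/-- The finite part of the extension lemma. -/
lemma extend_fin (hc : ∀ x, x ∈ Subgroup.zpowers c) {Ω : Type*} [Finite Ω]
    [MulAction (PushoutI φ) Ω] {m₀ : ℕ} [NeZero m₀] {L₀ : Subgroup (PushoutI φ)} [L₀.Normal]
    (hL₀ : L₀ = (MulAction.toPermHom (PushoutI φ) Ω).ker)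
    (hcm₀ : (PushoutI.base φ c) ^ m₀ ∈ L₀)
    {j₀ : (PushoutI φ ⧸ L₀) → ZMod m₀} (i₀ : ι) {B₀ : Subgroup (G i₀)} [B₀.Normal]
    (hB₀ : ∀ g : G i₀, g ∈ B₀ ↔ (PushoutI.of i₀ g : PushoutI φ) ∈ L₀)
    {κ₀ : PushoutI φ → (PushoutI φ ⧸ L₀) → ((G i₀ ⧸ B₀) × Equiv.Perm Ω)}
    (hκ₀ : IsCoc κ₀) (hκ₀2 : ∀ i (g : G i) δ, κ₀ (PushoutI.of i g) δ =
      finFam (φ := φ) Ω i₀ B₀ i (eta c j₀ i g δ))
    {Lst : Subgroup (PushoutI φ)} (hLstf : Lst.FiniteIndex) (h1 : Lst ≤ L₀)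
    (h2 : ∀ n ∈ Lst, κ₀ n (1 : PushoutI φ ⧸ L₀) = 1)
    (h3 : B₀ ≤ Lst.comap (PushoutI.of i₀ : G i₀ →* PushoutI φ))
    {N : Subgroup (PushoutI φ)} [hNn : N.Normal] (hN : Acc' Lst N)
    {B : Subgroup (G i₀)} [B.Normal] [B.FiniteIndex]
    (hB : ∀ g : G i₀, g ∈ B ↔ (PushoutI.of i₀ g : PushoutI φ) ∈ N)
    {m : ℕ} [NeZero m] (hmm : m₀ ∣ m) (hcm : (PushoutI.base φ c) ^ m ∈ N) (hNL : N ≤ L₀)
    {j : (PushoutI φ ⧸ N) → ZMod m} (hj : ∀ δ, j (PushoutI.base φ c • δ) = j δ + 1)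
    (hjj : ∀ δ, ZMod.castHom hmm (ZMod m₀) (j δ) = j₀ (lproj hNL δ))
    {κ : PushoutI φ → (PushoutI φ ⧸ N) → ((G i₀ ⧸ B) × Equiv.Perm Ω)}
    (hκ : IsCoc κ) (hκ2 : ∀ i (g : G i) δ, κ (PushoutI.of i g) δ =
      finFam (φ := φ) Ω i₀ B i (eta c j i g δ)) :
    ∃ N' : Subgroup (PushoutI φ), Acc' N N' ∧
      ∀ n, n ∈ N' ↔ n ∈ N ∧ κ n (1 : PushoutI φ ⧸ N) = 1 := by
  have hNf : N.FiniteIndex := hN.fin hLstf
  have hBB : B ≤ B₀ := fun g hg => (hB₀ g).mpr (hNL ((hB g).mp hg))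
  have hker : N ≤ (MulAction.toPermHom (PushoutI φ) Ω).ker := by rw [← hL₀]; exact hNL
  have hcmi : ∀ i, (PushoutI.of i (φ i c ^ m) : PushoutI φ) ∈ N := by
    intro i
    rw [map_pow, PushoutI.of_apply_eq_base]; exact hcm
  have hfin1 : ∀ i (g : G i), (PushoutI.of i g : PushoutI φ) ∈ N →
      finFam (φ := φ) Ω i₀ B i g = 1 := fun i g hg => finFam_one hker (fun g hg => (hB g).mpr hg) i g hg
  -- comparison with the base level
  let Qm : (G i₀ ⧸ B) →* (G i₀ ⧸ B₀) := QuotientGroup.map B B₀ (MonoidHom.id _) hBB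
  let Bm : ((G i₀ ⧸ B) × Equiv.Perm Ω) →* ((G i₀ ⧸ B₀) × Equiv.Perm Ω) :=
    Qm.prodMap (MonoidHom.id _)
  have hcomp : ∀ γ δ, Bm (κ γ δ) = κ₀ γ (lproj hNL δ) := by
    refine level_compare hmm hNL hjj Bm (P := finFam (φ := φ) Ω i₀ B)
      (P₀ := finFam (φ := φ) Ω i₀ B₀) ?_ ?_ hκ hκ2 hκ₀ hκ₀2
    · intro i g
      by_cases hi : i = i₀
      · subst hi
        rw [finFam_self, finFam_self]; rfl
      · rw [finFam_ne _ _ _ hi, finFam_ne _ _ _ hi]
        show (Qm 1, _) = _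
        rw [map_one]; rfl
    · intro i
      refine finFam_one (N := L₀) (le_of_eq hL₀) (fun g hg => (hB₀ g).mpr hg) i _ ?_
      rw [map_pow, PushoutI.of_apply_eq_base]
      exact hcm₀
  let Em : G i₀ →* ((G i₀ ⧸ B) × Equiv.Perm Ω) :=
    (MonoidHom.inl (G i₀ ⧸ B) (Equiv.Perm Ω)).comp (QuotientGroup.mk' B)
  let S : Subgroup ((G i₀ ⧸ B) × Equiv.Perm Ω) := B₀.map Em
  have hS : ∀ n ∈ N, κ n (1 : PushoutI φ ⧸ N) ∈ S := by
    intro n hn
    have h4 := hcomp n 1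
    rw [map_one, h2 n (hN.le hn)] at h4
    have h5 : Qm (κ n 1).1 = 1 := congrArg Prod.fst h4
    have h6 : (κ n 1).2 = 1 := congrArg Prod.snd h4
    generalize hq : (κ n 1).1 = q at h5
    induction q using QuotientGroup.induction_on with
    | H z =>
      refine ⟨z, (QuotientGroup.eq_one_iff (N := B₀) z).mp h5, ?_⟩
      refine Prod.ext ?_ ?_
      · exact hq.symm
      · exact h6.symm
  obtain ⟨n₀, hn₀⟩ := (hN.comap (PushoutI.of i₀ : G i₀ →* PushoutI φ)).dser_le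
  have hSd : dser S n₀ = ⊥ := by
    rw [← dser_map, eq_bot_iff]
    rintro _ ⟨x, hx, rfl⟩
    have hx' : x ∈ B := (hB x).mpr (hn₀ (dser_mono h3 n₀ hx))
    rw [Subgroup.mem_bot]
    show (((x : G i₀ ⧸ B)), (1 : Equiv.Perm Ω)) = 1
    rw [(QuotientGroup.eq_one_iff x).mpr hx']; rfl
  -- factorisation through a free group
  obtain ⟨K, hK, hK2⟩ := exists_freeCoc (φ := φ) c hc (PushoutI φ ⧸ N)
  have hκc : ∀ δ, κ (PushoutI.base φ c) δ = 1 := by
    intro δ
    rw [← PushoutI.of_apply_eq_base φ i₀, hκ2, eta_c hj]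
    by_cases h : (j δ).val + 1 < m
    · rw [if_pos h, map_one]
    · rw [if_neg h, hfin1 _ _ (hcmi i₀)]
  obtain ⟨ev, hev⟩ := IsCoc.factor c hK hK2 hκ
    (fun i g δ hg => by
      rw [hκ2, eta_of_mem j i g δ hg]
      exact hfin1 _ _ (of_conj_mem i g _ (mem_of_smul_eq N δ hg))) hκc
  let ψ : N →* FreeGroup (Cls φ c (PushoutI φ ⧸ N) × ι) := cocHom N hK 1
  have hfinQ : Finite (G i₀ ⧸ B) := inferInstance
  have hacc1 := (free_acc_ker ev S n₀ hSd).comap ψ
  have htop : (S.comap ev).comap ψ = ⊤ := by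
    rw [eq_top_iff]
    intro n _
    show ev (K n 1) ∈ S
    rw [← hev]
    exact hS n n.2
  rw [htop] at hacc1
  refine ⟨(ev.ker.comap ψ).map N.subtype, hacc1.map_subtype_top N hNf, ?_⟩
  intro n
  rw [mem_map_subtype_iff]
  constructor
  · rintro ⟨h4, h5⟩
    refine ⟨h4, ?_⟩
    rw [hev]; exact h5
  · rintro ⟨h4, h5⟩
    refine ⟨h4, ?_⟩
    show ev (K n 1) = 1
    rw [← hev]; exact h5

/-- The functional part of the extension lemma. -/
lemma extend_fun (hc : ∀ x, x ∈ Subgroup.zpowers c) {Ω : Type*}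
    [MulAction (PushoutI φ) Ω] {w : PushoutI φ → Ω → Multiplicative ℤ} (hw : IsCoc w) (ω₀ : Ω)
    (i₀ : ι)
    {N : Subgroup (PushoutI φ)} [hNn : N.Normal]
    (hNker : ∀ n ∈ N, ∀ ω : Ω, n • ω = ω)
    {B : Subgroup (G i₀)} [B.Normal]
    (hB : ∀ g : G i₀, g ∈ B ↔ (PushoutI.of i₀ g : PushoutI φ) ∈ N)
    {m : ℕ} [NeZero m] (hcm : (PushoutI.base φ c) ^ m ∈ N)
    {j : (PushoutI φ ⧸ N) → ZMod m} (hj : ∀ δ, j (PushoutI.base φ c • δ) = j δ + 1)
    (hj1 : j (1 : PushoutI φ ⧸ N) = 0)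
    {κ : PushoutI φ → (PushoutI φ ⧸ N) → ((G i₀ ⧸ B) × Equiv.Perm Ω)}
    (hκ : IsCoc κ) (hκ2 : ∀ i (g : G i) δ, κ (PushoutI.of i g) δ =
      finFam (φ := φ) Ω i₀ B i (eta c j i g δ))
    {N' : Subgroup (PushoutI φ)}
    (hN' : ∀ n, n ∈ N' ↔ n ∈ N ∧ κ n (1 : PushoutI φ ⧸ N) = 1)
    (f : B →* Multiplicative ℤ) (v : Ω → ℤ)
    (hvs : ∀ (q : G i₀ ⧸ B) ω, v ω * extF f (q.out⁻¹ * φ i₀ c ^ m * q.out) =
      extF f (q.out⁻¹ * φ i₀ c ^ m * q.out) *
        Multiplicative.toAdd (w ((PushoutI.base φ c) ^ m) ω)) :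
    ∃ (F : N' →* Multiplicative ℤ),
      ∀ b (hb : b ∈ B), ∃ h : (PushoutI.of i₀ b : PushoutI φ) ∈ N',
        Multiplicative.toAdd (F ⟨_, h⟩) = v ω₀ * Multiplicative.toAdd (f ⟨b, hb⟩) := by
  have hcmi : ∀ i, (PushoutI.of i (φ i c ^ m) : PushoutI φ) ∈ N := by
    intro i
    rw [map_pow, PushoutI.of_apply_eq_base]; exact hcm
  let s : (G i₀ ⧸ B) → ℤ := fun q => extF f (q.out⁻¹ * φ i₀ c ^ m * q.out)
  have hzc : ∀ i k, zFam hw f v s i (φ i c ^ m) = zFam hw f v s k (φ k c ^ m) := by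
    have key : ∀ i, zFam hw f v s i (φ i c ^ m) = actO hw (G i₀ ⧸ B) s
        ((PushoutI.base φ c) ^ m) := by
      intro i
      by_cases hi : i = i₀
      · subst hi
        rw [zFam_self]
        apply Equiv.ext
        rintro ⟨⟨q, ω⟩, z⟩
        rw [actB_apply, actO_apply]
        have h4 : φ i c ^ m ∈ B := (hB _).mpr (hcmi i)
        have h5 : (φ i c ^ m) • q = q := smul_eq_of_mem B h4 q
        have h6 : (PushoutI.base φ c) ^ m • ω = ω := hNker _ hcm ω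
        rw [h5, h6]
        show ((q, ω), Multiplicative.ofAdd (v ω * s q) * z) = _
        rw [hvs]
      · rw [zFam_ne _ _ _ _ hi, map_pow, PushoutI.of_apply_eq_base]
    intro i k
    rw [key, key]
  obtain ⟨κz, hκz, hκz2⟩ := exists_levelCoc hc hj (zFam hw f v s) hzc
  have hequi : ∀ γ δ, Equi (κz γ δ) := by
    intro γ
    induction γ using push_induction with
    | hof i g =>
      intro δ
      rw [hκz2]
      by_cases hi : i = i₀
      · subst hi
        rw [zFam_self]; exact actB_equi _ _ _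
      · rw [zFam_ne _ _ _ _ hi]; exact actO_equi _ _ _ _
    | hmul x y hx hy =>
      intro δ
      rw [hκz]
      exact (hx _).mul (hy _)
  have hrel : ∀ γ δ q ω z, (κz γ δ ((q, ω), z)).1 = ((κ γ δ).1 * q, (κ γ δ).2 ω) := by
    intro γ
    induction γ using push_induction with
    | hof i g =>
      intro δ q ω z
      rw [hκz2, hκ2]
      by_cases hi : i = i₀
      · subst hi
        rw [zFam_self, finFam_self, actB_apply]
        refine Prod.ext ?_ rfl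
        show eta c j i g δ • q = ((eta c j i g δ : G i) : G i ⧸ B) * q
        induction q using QuotientGroup.induction_on with
        | H z => rfl
      · rw [zFam_ne _ _ _ _ hi, finFam_ne _ _ _ hi, actO_apply]
        refine Prod.ext ?_ rfl
        show q = 1 * q
        rw [one_mul]
    | hmul x y hx hy =>
      intro δ q ω z
      rw [hκz, Equiv.Perm.mul_apply, hκ]
      have h4 := hy δ q ω z
      rw [← Prod.mk.eta (p := κz y δ ((q, ω), z)), h4, hx]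
      rw [Prod.fst_mul, Prod.snd_mul, mul_assoc]; rfl
  -- the functional
  have hfix : ∀ n : N', ∀ z, (κz (n : PushoutI φ) (1 : PushoutI φ ⧸ N) (((1 : G i₀ ⧸ B), ω₀), z)).1
      = ((1 : G i₀ ⧸ B), ω₀) := by
    intro n z
    rw [hrel, ((hN' n).mp n.2).2]
    show ((1 : G i₀ ⧸ B) * 1, _) = _
    rw [mul_one]; rfl
  let F : N' →* Multiplicative ℤ := MonoidHom.mk'
    (fun n => (κz (n : PushoutI φ) (1 : PushoutI φ ⧸ N) (((1 : G i₀ ⧸ B), ω₀), 1)).2)
    (fun n n' => by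
      have h4 : (n' : PushoutI φ) • (1 : PushoutI φ ⧸ N) = 1 :=
        smul_eq_of_mem N ((hN' n').mp n'.2).1 _
      rw [Subgroup.coe_mul, hκz, h4, Equiv.Perm.mul_apply]
      conv_lhs => rw [← Prod.mk.eta (p := κz (n' : PushoutI φ) 1 ((1, ω₀), 1)), hfix,
        (hequi _ _).apply])
  refine ⟨F, fun b hb => ?_⟩
  have hbN : (PushoutI.of i₀ b : PushoutI φ) ∈ N := (hB b).mp hb
  have hb1 : (PushoutI.of i₀ b : PushoutI φ) • (1 : PushoutI φ ⧸ N) = 1 :=
    smul_eq_of_mem N hbN _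
  have heta : eta c j i₀ b (1 : PushoutI φ ⧸ N) = b := by
    rw [eta_of_mem j i₀ b _ hb1, hj1, ZMod.val_zero]; simp
  have hbN' : (PushoutI.of i₀ b : PushoutI φ) ∈ N' := by
    rw [hN']
    refine ⟨hbN, ?_⟩
    rw [hκ2, heta, finFam_self, (QuotientGroup.eq_one_iff b).mpr hb]; rfl
  refine ⟨hbN', ?_⟩
  show Multiplicative.toAdd (κz (PushoutI.of i₀ b) 1 ((1, ω₀), 1)).2 = _
  rw [hκz2, heta, zFam_self, actB_apply]
  have h5 : b • (1 : G i₀ ⧸ B) = 1 := smul_eq_of_mem B hb _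
  have h6 : (1 : G i₀ ⧸ B).out ∈ B := by
    have : (((1 : G i₀ ⧸ B).out : G i₀) : G i₀ ⧸ B) = 1 := QuotientGroup.out_eq' _
    exact (QuotientGroup.eq_one_iff _).mp this
  show Multiplicative.toAdd (Multiplicative.ofAdd (v ω₀ * extF f ((b • (1 : G i₀ ⧸ B)).out⁻¹ * b *
    (1 : G i₀ ⧸ B).out)) * 1) = _
  rw [h5, extF_conj f hb h6, mul_one, extF_mem f hb]; rfl

end Extend

end Pool.Agent.Helper29
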