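import Mathlib
import Pool.Agent.Helper29.VRC.Basic
import Pool.Agent.Helper29.VRC.Free
import Pool.Agent.Helper29.VRC.Facts
import Pool.Agent.Helper29.VRC.Glue
import Pool.Agent.Helper29.VRC.Main
import Pool.Agent.Helper29.RFRS.Acc
import Pool.Agent.Helper29.RFRS.Func
import Pool.Agent.Helper29.RFRS.FreeAcc
import Pool.Agent.Helper29.RFRS.Cocycle
import Pool.Agent.Helper29.RFRS.Level
import Pool.Agent.Helper29.RFRS.Extend

set_option autoImplicit false

namespace Pool.Agent.Helper29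

open Monoid

universe u v

section FG

lemma countable_of_fg (G : Type*) [Group G] (h : Group.FG G) : Countable G := by
  obtain ⟨α, hα, f, hf⟩ := Group.fg_iff_exists_freeGroup_hom_surjective_finite.mp h
  exact hf.countable

lemma pushout_fg {ι : Type*} [Nonempty ι] [Finite ι] {C : Type*} [Group C] {G : ι → Type*}
    [∀ i, Group (G i)] (φ : ∀ i, C →* G i) (h : ∀ i, Group.FG (G i)) :
    Group.FG (PushoutI φ) := by
  have h1 : ∀ i, ∃ S : Set (G i), Subgroup.closure S = ⊤ ∧ S.Finite := fun i =>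
    Group.fg_iff.mp (h i)
  choose S hS hSf using h1
  rw [Group.fg_iff]
  refine ⟨⋃ i, (PushoutI.of i : G i →* PushoutI φ) '' (S i), ?_, ?_⟩
  · rw [eq_top_iff]
    intro g _
    induction g using push_induction with
    | hof i g =>
      have h2 : Subgroup.map (PushoutI.of i : G i →* PushoutI φ) (Subgroup.closure (S i)) ≤
          Subgroup.closure (⋃ i, (PushoutI.of i : G i →* PushoutI φ) '' (S i)) := by
        rw [MonoidHom.map_closure]
        exact Subgroup.closure_mono (Set.subset_iUnion_of_subset i le_rfl)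
      apply h2
      rw [hS i]
      exact ⟨g, trivial, rfl⟩
    | hmul x y hx hy => exact Subgroup.mul_mem _ (hx trivial) (hy trivial)
  · exact Set.finite_iUnion (fun i => (hSf i).image _)

end FG

section ActOf

/-- A weighted permutation representation as an action with a cocycle. -/
lemma exists_act {Γ Ω A : Type*} [Group Γ] [Group A] (Θ : Γ →* Equiv.Perm (Ω × A))
    (hΘ : ∀ g, Equi (Θ g)) : ∃ (_ : MulAction Γ Ω) (w : Γ → Ω → A), IsCoc w ∧
      ∀ (g : Γ) (ω : Ω) (a : A), Θ g (ω, a) = (g • ω, w g ω * a) := by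
  let act : MulAction Γ Ω :=
    { smul := fun g ω => (Θ g (ω, 1)).1
      one_smul := fun ω => by show (Θ 1 (ω, 1)).1 = ω; simp
      mul_smul := fun g g' ω => by
        show (Θ (g * g') (ω, 1)).1 = (Θ g ((Θ g' (ω, 1)).1, 1)).1
        rw [map_mul, Equiv.Perm.mul_apply]
        conv_lhs => rw [← Prod.mk.eta (p := Θ g' (ω, 1)), (hΘ g).apply] }
  have h1 : ∀ (g : Γ) (ω : Ω) (a : A), Θ g (ω, a) = (g • ω, (Θ g (ω, 1)).2 * a) := by
    intro g ω a
    rw [(hΘ g).apply]; rfl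
  refine ⟨act, fun g ω => (Θ g (ω, 1)).2, ?_, h1⟩
  intro g g' ω
  show (Θ (g * g') (ω, 1)).2 = _
  rw [map_mul, Equiv.Perm.mul_apply, h1 g' ω 1, h1, mul_one]

end ActOf

section Base

variable {ι : Type v} [Nonempty ι] [Finite ι] {C : Type*} [Group C] {G : ι → Type u}
  [∀ i, Group (G i)]

/-- The base representation. -/
lemma base_data (hG : ∀ i, VRC (G i)) (c : C) (hc : ∀ x, x ∈ Subgroup.zpowers c)
    (φ : ∀ i, C →* G i) (ho : OrdHyp (fun i => φ i c)) (M : ∀ i, Subgroup (G i))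
    (hM : ∀ i, (M i).Normal) (hMf : ∀ i, (M i).FiniteIndex) :
    ∃ (m : ℕ) (N : ∀ i, Subgroup (G i)) (Ω : Type (max u v)) (_ : Finite Ω)
      (Θ : PushoutI φ →* Equiv.Perm (Ω × Multiplicative ℤ)) (ω₀ : Ω), 0 < m ∧
      (∀ i, (N i).Normal ∧ (N i).FiniteIndex ∧ N i ≤ M i ∧
        ∀ k : ℤ, φ i c ^ k ∈ N i ↔ (m : ℤ) ∣ k) ∧
      (∀ g, Equi (Θ g)) ∧
      (∀ i (g : G i), g ∈ N i ↔ ∀ ω x, (Θ (PushoutI.of i g) (ω, x)).1 = ω) ∧
      ((Θ ((PushoutI.base φ c) ^ m) (ω₀, 1)).2 ≠ 1 ∨ ∀ i, φ i c ^ m = 1) := by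
  classical
  have := Fintype.ofFinite ι
  -- functionals
  have hbase : ∀ i, ∃ K : Subgroup (G i), K.FiniteIndex ∧ ∃ f : K →* Multiplicative ℤ,
      (¬ IsOfFinOrder (φ i c) → ∃ hK : φ i c ∈ K, f ⟨_, hK⟩ = Multiplicative.ofAdd 1) := by
    intro i
    by_cases h : IsOfFinOrder (φ i c)
    · exact ⟨⊤, inferInstance, 1, fun h' => absurd h h'⟩
    · obtain ⟨K, h1, h2, f, h3⟩ := (hG i (φ i c)).functional h
      exact ⟨K, h1, f, fun _ => ⟨h2, h3⟩⟩
  choose K hK f hf using hbase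
  have hMf' : ∀ i, (M i ⊓ (K i).normalCore).FiniteIndex := by
    intro i
    have := hMf i
    have := hK i
    infer_instance
  obtain ⟨m, N, hm0, hor, hN⟩ := compat hG (fun i => φ i c) ho (fun i => M i ⊓ (K i).normalCore)
    (fun i => inferInstance) hMf'
  have : NeZero m := ⟨hm0.ne'⟩
  have hNn : ∀ i, (N i).Normal := fun i => (hN i).1
  have hNf : ∀ i, (N i).FiniteIndex := fun i => (hN i).2.1
  have hNK : ∀ i, N i ≤ K i := fun i =>
    ((hN i).2.2.1.trans inf_le_right).trans (K i).normalCore_le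
  have hNm : ∀ i, ∀ k : ℤ, φ i c ^ k ∈ N i ↔ (m : ℤ) ∣ k := fun i => (hN i).2.2.2
  choose X hXf τ e he using fun i => exists_coord (φ i c) m (N i) (hNm i)
  let F : ∀ i, N i →* Multiplicative ℤ := fun i => (f i).comp (Subgroup.inclusion (hNK i))
  have hcm : ∀ i, φ i c ^ m ∈ N i := by
    intro i
    have := (hNm i m).mpr dvd_rfl
    simpa using this
  have hFc : ∀ i, ¬ IsOfFinOrder (φ i c) → extF (F i) (φ i c ^ m) = m := by
    intro i hi
    obtain ⟨h1, h2⟩ := hf i hi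
    rw [restrict_functional _ _ _ _ (hcm i)]
    have : (⟨φ i c ^ m, hNK i (hcm i)⟩ : K i) = ⟨φ i c, h1⟩ ^ m := rfl
    rw [this, map_pow, h2]
    simp
  have hpt : ∀ i, ∃ (j : ZMod m) (y : X i), φ i c ^ j.val * τ i y ∈ N i := by
    intro i
    refine ⟨((e i).symm ((1 : G i) : G i ⧸ N i)).1, ((e i).symm ((1 : G i) : G i ⧸ N i)).2, ?_⟩
    have := he i ((e i).symm ((1 : G i) : G i ⧸ N i)).1 ((e i).symm ((1 : G i) : G i ⧸ N i)).2
    rw [Prod.mk.eta, Equiv.apply_symm_apply, QuotientGroup.eq] at this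
    simpa using this
  choose j₀ y₀ hjy using hpt
  let s : ∀ i, X i → ℤ := fun i y => extF (F i) ((τ i y)⁻¹ * φ i c ^ m * τ i y)
  have hs : ∀ i, ¬ IsOfFinOrder (φ i c) → s i (y₀ i) ≠ 0 := by
    intro i hi'
    have h2 : (τ i (y₀ i))⁻¹ * φ i c ^ m * τ i (y₀ i) =
        (φ i c ^ (j₀ i).val * τ i (y₀ i))⁻¹ * φ i c ^ m * (φ i c ^ (j₀ i).val * τ i (y₀ i)) := by
      have : (φ i c ^ (j₀ i).val)⁻¹ * φ i c ^ m * φ i c ^ (j₀ i).val = φ i c ^ m := by
        have h3 : Commute (φ i c ^ (j₀ i).val) (φ i c ^ m) :=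
          (Commute.refl _).pow_pow _ _
        rw [mul_assoc, ← h3.eq, ← mul_assoc, inv_mul_cancel, one_mul]
      rw [mul_inv_rev]
      calc _ = (τ i (y₀ i))⁻¹ * ((φ i c ^ (j₀ i).val)⁻¹ * φ i c ^ m * φ i c ^ (j₀ i).val) *
            τ i (y₀ i) := by rw [this]
        _ = _ := by group
    show extF (F i) _ ≠ 0
    rw [h2, extF_conj _ (hcm i) (hjy i), hFc i hi']
    exact_mod_cast hm0.ne'
  -- the weights
  obtain ⟨Λ, hΛ, hcons, hΛ0⟩ : ∃ Λ : ι → (∀ i, X i) → ℤ,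
      (∀ i x y, Λ i (Function.update x i y) = Λ i x) ∧
      (∀ i k x, Λ i x * s i (x i) = Λ k x * s k (x k)) ∧
      ((∀ i, Λ i y₀ * s i (y₀ i) ≠ 0) ∨ ∀ i, φ i c ^ m = 1) := by
    rcases hor with hinf | hfin
    · refine ⟨fun i x => ∏ k ∈ Finset.univ.erase i, s k (x k), ?_, ?_, Or.inl ?_⟩
      · intro i x y
        apply Finset.prod_congr rfl
        intro k hk
        rw [Function.update_of_ne (Finset.ne_of_mem_erase hk)]
      · intro i k x
        rw [Finset.prod_erase_mul _ _ (Finset.mem_univ i),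
          Finset.prod_erase_mul _ _ (Finset.mem_univ k)]
      · intro i
        rw [Finset.prod_erase_mul _ (fun k => s k (y₀ k)) (Finset.mem_univ i),
          Finset.prod_ne_zero_iff]
        intro k _
        exact hs k (hinf k)
    · have hs0 : ∀ i y, s i y = 0 := by
        intro i y
        have h1 : φ i c ^ m = 1 := hfin i
        simp only [s]
        rw [h1, mul_one, inv_mul_cancel, extF_one]
      exact ⟨fun _ _ => 1, fun _ _ _ => rfl, fun i k x => by rw [hs0, hs0], Or.inr hfin⟩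
  obtain ⟨Θ, hΘ1, hΘ2⟩ := weights c hc φ hNm he F Λ hΛ hcons
  refine ⟨m, N, ZMod m × ∀ i, X i, inferInstance, Θ, (0, y₀), hm0,
    fun i => ⟨(hN i).1, (hN i).2.1, (hN i).2.2.1.trans inf_le_left, (hN i).2.2.2⟩, hΘ1, ?_, ?_⟩
  · intro i g
    constructor
    · intro hg ω x
      rw [hΘ2, actP_mem e i g hg]; rfl
    · intro h
      have h1 := h (0, y₀) 1
      rw [hΘ2] at h1
      exact mem_of_actP e i g 0 y₀ h1
  · rcases hΛ0 with h | h
    · left
      obtain ⟨i⟩ := (inferInstance : Nonempty ι)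
      have h1 : (PushoutI.base φ c) ^ m = (PushoutI.of i (φ i c ^ m) : PushoutI φ) := by
        rw [map_pow, PushoutI.of_apply_eq_base]
      rw [h1, hΘ2, actP_mem e i _ (hcm i)]
      simp only [Equiv.Perm.one_apply, mul_one]
      intro h2
      apply h i
      have h3 := congrArg Multiplicative.toAdd h2
      have h4 : (pt (fun i => φ i c) τ i ((0 : ZMod m), y₀))⁻¹ * φ i c ^ m *
          pt (fun i => φ i c) τ i ((0 : ZMod m), y₀) = (τ i (y₀ i))⁻¹ * φ i c ^ m * τ i (y₀ i) := by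
        simp [pt]
      rw [h4] at h3
      exact h3
    · exact Or.inr h

end Base

section Ext

variable {ι : Type v} [Nonempty ι] [Finite ι] {C : Type*} [Group C] {G : ι → Type u}
  [∀ i, Group (G i)]

/-- The extension property of functionals from the factors. -/
def ExtProp (φ : ∀ i, C →* G i) (L : Subgroup (PushoutI φ)) : Prop :=
  ∀ N : Subgroup (PushoutI φ), N.Normal → Acc' L N → ∀ (i₀ : ι) (B : Subgroup (G i₀)),
    (∀ g, g ∈ B ↔ (PushoutI.of i₀ g : PushoutI φ) ∈ N) → ∀ f : B →* Multiplicative ℤ,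
    ∃ N' : Subgroup (PushoutI φ), Acc' N N' ∧ ∃ (F : N' →* Multiplicative ℤ) (v : ℤ), v ≠ 0 ∧
      ∀ b (hb : b ∈ B), ∃ h : (PushoutI.of i₀ b : PushoutI φ) ∈ N',
        Multiplicative.toAdd (F ⟨_, h⟩) = v * Multiplicative.toAdd (f ⟨b, hb⟩)

lemma exists_Lst (hG : ∀ i, VRC (G i)) (c : C) (hc : ∀ x, x ∈ Subgroup.zpowers c)
    (φ : ∀ i, C →* G i) (ho : OrdHyp (fun i => φ i c)) (M : ∀ i, Subgroup (G i))
    (hM : ∀ i, (M i).Normal) (hMf : ∀ i, (M i).FiniteIndex) :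
    ∃ L : Subgroup (PushoutI φ), L.Normal ∧ L.FiniteIndex ∧
      (∀ i (g : G i), (PushoutI.of i g : PushoutI φ) ∈ L → g ∈ M i) ∧ ExtProp φ L := by
  classical
  obtain ⟨m₀, Nb, Ω, hΩ, Θ, ω₀, hm0, hNb, hΘ, hker, halt⟩ := base_data hG c hc φ ho M hM hMf
  have : NeZero m₀ := ⟨hm0.ne'⟩
  have hNbn : ∀ i, (Nb i).Normal := fun i => (hNb i).1
  have hNbf : ∀ i, (Nb i).FiniteIndex := fun i => (hNb i).2.1
  obtain ⟨act, w, hw, hΘw⟩ := exists_act Θ hΘ
  set L₀ : Subgroup (PushoutI φ) := (MulAction.toPermHom (PushoutI φ) Ω).ker with hL₀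
  have hL₀n : L₀.Normal := inferInstance
  have hL₀f : L₀.FiniteIndex := by
    rw [hL₀, ← MonoidHom.comap_bot]
    exact finiteIndex_comap _ _ inferInstance
  have hL₀mem : ∀ g : PushoutI φ, g ∈ L₀ ↔ ∀ ω : Ω, g • ω = ω := by
    intro g
    rw [hL₀, MonoidHom.mem_ker]
    constructor
    · intro h ω
      exact congrArg (fun σ : Equiv.Perm Ω => σ ω) h
    · intro h
      exact Equiv.ext h
  have hB₀ : ∀ i (g : G i), g ∈ Nb i ↔ (PushoutI.of i g : PushoutI φ) ∈ L₀ := by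
    intro i g
    rw [hker, hL₀mem]
    constructor
    · intro h ω
      have := h ω 1
      rw [hΘw] at this
      exact this
    · intro h ω x
      rw [hΘw]; exact h ω
  have hm₀ : ∀ k : ℤ, (PushoutI.base φ c) ^ k ∈ L₀ ↔ (m₀ : ℤ) ∣ k := by
    intro k
    obtain ⟨i⟩ := (inferInstance : Nonempty ι)
    rw [← (hNb i).2.2.2 k, hB₀, map_zpow, PushoutI.of_apply_eq_base]
  have hcm₀ : (PushoutI.base φ c) ^ m₀ ∈ L₀ := by
    have := (hm₀ m₀).mpr dvd_rfl
    rwa [zpow_natCast] at this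
  obtain ⟨j₀, hj₀, _, hj₀1⟩ := exists_j (c := c) L₀ m₀ 1 (one_dvd _) hm₀ (fun _ => 0)
    (fun _ => Subsingleton.elim _ _) rfl
  -- the base cocycles
  have hfam1 : ∀ i₀ i (g : G i), (PushoutI.of i g : PushoutI φ) ∈ L₀ →
      finFam (φ := φ) Ω i₀ (Nb i₀) i g = 1 := fun i₀ i g hg =>
    finFam_one (N := L₀) le_rfl (fun g hg => (hB₀ i₀ g).mpr hg) i g hg
  have hcmi : ∀ i, (PushoutI.of i (φ i c ^ m₀) : PushoutI φ) ∈ L₀ := by
    intro i
    rw [map_pow, PushoutI.of_apply_eq_base]; exact hcm₀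
  have hex : ∀ i₀, ∃ κ : PushoutI φ → (PushoutI φ ⧸ L₀) → ((G i₀ ⧸ Nb i₀) × Equiv.Perm Ω),
      IsCoc κ ∧ ∀ i (g : G i) δ, κ (PushoutI.of i g) δ =
        finFam (φ := φ) Ω i₀ (Nb i₀) i (eta c j₀ i g δ) := fun i₀ =>
    exists_levelCoc hc hj₀ (finFam (φ := φ) Ω i₀ (Nb i₀))
      (fun i k => by rw [hfam1 i₀ i _ (hcmi i), hfam1 i₀ k _ (hcmi k)])
  choose κ₀ hκ₀ hκ₀2 using hex
  set L : Subgroup (PushoutI φ) := ⨅ i₀, (cocPerm (κ₀ i₀) (hκ₀ i₀)).ker with hL
  have hLn : L.Normal := by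
    rw [hL]
    exact Subgroup.normal_iInf_normal (fun i => inferInstance)
  have hLf : L.FiniteIndex := by
    rw [hL]
    refine Subgroup.finiteIndex_iInf (fun i₀ => ?_)
    rw [← MonoidHom.comap_bot]
    exact finiteIndex_comap _ _ inferInstance
  have hLmem : ∀ n ∈ L, ∀ i₀ δ, n • δ = δ ∧ κ₀ i₀ n δ = 1 := by
    intro n hn i₀
    rw [hL, Subgroup.mem_iInf] at hn
    exact (mem_ker_cocPerm (hκ₀ i₀) n).mp (hn i₀)
  have hLL₀ : L ≤ L₀ := by
    intro n hn
    obtain ⟨i⟩ := (inferInstance : Nonempty ι)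
    exact mem_of_smul_eq L₀ 1 (hLmem n hn i 1).1
  have hNbL : ∀ i, Nb i ≤ L.comap (PushoutI.of i : G i →* PushoutI φ) := by
    intro i b hb
    rw [Subgroup.mem_comap, hL, Subgroup.mem_iInf]
    intro i₀
    rw [mem_ker_cocPerm]
    intro δ
    have hbL : (PushoutI.of i b : PushoutI φ) ∈ L₀ := (hB₀ i b).mp hb
    have h1 := smul_eq_of_mem L₀ hbL δ
    refine ⟨h1, ?_⟩
    rw [hκ₀2, eta_of_mem j₀ i b δ h1]
    exact hfam1 i₀ i _ (of_conj_mem i b _ hbL)
  refine ⟨L, hLn, hLf, fun i g hg => (hNb i).2.2.1 ((hB₀ i g).mpr (hLL₀ hg)), ?_⟩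
  intro N hN hacc i₀ B hB f
  have hNf : N.FiniteIndex := hacc.fin hLf
  have hNL : N ≤ L₀ := hacc.le.trans hLL₀
  obtain ⟨m, hmpos, hm⟩ := exists_period (φ := φ) (c := c) N
  have : NeZero m := ⟨hmpos.ne'⟩
  have hcm : (PushoutI.base φ c) ^ m ∈ N := by
    have := (hm m).mpr dvd_rfl
    rwa [zpow_natCast] at this
  have hmm : m₀ ∣ m := by
    have := (hm₀ m).mp (by rw [zpow_natCast]; exact hNL hcm)
    exact_mod_cast this
  obtain ⟨j, hj, hjj, hj1⟩ := exists_j (c := c) N m m₀ hmm hm (fun δ => j₀ (lproj hNL δ))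
    (fun δ => by rw [lproj_smul, hj₀]) (by rw [map_one]; exact hj₀1)
  have hBeq : B = N.comap (PushoutI.of i₀ : G i₀ →* PushoutI φ) := by
    ext g; exact hB g
  have hBn : B.Normal := by rw [hBeq]; infer_instance
  have hBf : B.FiniteIndex := by rw [hBeq]; exact finiteIndex_comap _ _ hNf
  have hNker : ∀ n ∈ N, ∀ ω : Ω, n • ω = ω := fun n hn => (hL₀mem n).mp (hNL hn)
  have hcmi' : ∀ i, (PushoutI.of i (φ i c ^ m) : PushoutI φ) ∈ N := by
    intro i
    rw [map_pow, PushoutI.of_apply_eq_base]; exact hcm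
  have hfam1' : ∀ i (g : G i), (PushoutI.of i g : PushoutI φ) ∈ N →
      finFam (φ := φ) Ω i₀ B i g = 1 := fun i g hg =>
    finFam_one (N := N) hNL (fun g hg => (hB g).mpr hg) i g hg
  obtain ⟨κ, hκ, hκ2⟩ := exists_levelCoc hc hj (finFam (φ := φ) Ω i₀ B)
    (fun i k => by rw [hfam1' i _ (hcmi' i), hfam1' k _ (hcmi' k)])
  obtain ⟨N', hN'acc, hN'mem⟩ := extend_fin hc hL₀ hcm₀ i₀ (hB₀ i₀) (hκ₀ i₀) (hκ₀2 i₀) hLf hLL₀
    (fun n hn => (hLmem n hn i₀ 1).2) (hNbL i₀) hacc hB hmm hcm hNL hj hjj hκ hκ2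
  obtain ⟨v, hv0, hvs⟩ : ∃ v : Ω → ℤ, v ω₀ ≠ 0 ∧ ∀ (q : G i₀ ⧸ B) ω,
      v ω * extF f (q.out⁻¹ * φ i₀ c ^ m * q.out) =
      extF f (q.out⁻¹ * φ i₀ c ^ m * q.out) *
        Multiplicative.toAdd (w ((PushoutI.base φ c) ^ m) ω) := by
    rcases halt with alt | alt
    · refine ⟨fun ω => Multiplicative.toAdd (w ((PushoutI.base φ c) ^ m) ω), ?_,
        fun q ω => mul_comm _ _⟩
      obtain ⟨t, ht⟩ := hmm
      have ht0 : 0 < t := by
        rcases Nat.eq_zero_or_pos t with h0 | h0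
        · rw [h0, mul_zero] at ht; omega
        · exact h0
      show Multiplicative.toAdd (w ((PushoutI.base φ c) ^ m) ω₀) ≠ 0
      have hω : (PushoutI.base φ c) ^ m₀ • ω₀ = ω₀ := (hL₀mem _).mp hcm₀ ω₀
      rw [ht, pow_mul, hw.pow _ _ hω]
      intro h0
      rw [hΘw, mul_one] at alt
      exact mint_pow_ne_one alt ht0 (Multiplicative.toAdd.injective h0)
    · refine ⟨fun _ => 1, one_ne_zero, fun q ω => ?_⟩
      have h4 : extF f (q.out⁻¹ * φ i₀ c ^ m * q.out) = 0 := by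
        have : φ i₀ c ^ m = 1 := by
          obtain ⟨t, ht⟩ := hmm
          rw [ht, pow_mul, alt, one_pow]
        rw [this, mul_one, inv_mul_cancel, extF_one]
      rw [h4]; simp
  obtain ⟨F, hF⟩ := extend_fun hc hw ω₀ i₀ hNker hB hcm hj hj1 hκ hκ2 hN'mem f v hvs
  exact ⟨N', hN'acc, F, v ω₀, hv0, hF⟩

end Ext

section PartH

variable {ι : Type v} [Nonempty ι] [Finite ι] {C : Type*} [Group C] {G : ι → Type u}
  [∀ i, Group (G i)] {φ : ∀ i, C →* G i}

/-- Accessible subgroups of a factor are induced by accessible subgroups of the amalgam. -/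
lemma ExtProp.induced (hfg : ∀ i, Group.FG (G i)) {L : Subgroup (PushoutI φ)} [hLn : L.Normal]
    (hLf : L.FiniteIndex) (h : ExtProp φ L) (i : ι) {A : Subgroup (G i)}
    (hA : Acc' (L.comap (PushoutI.of i : G i →* PushoutI φ)) A) :
    ∃ N : Subgroup (PushoutI φ), N.Normal ∧ Acc' L N ∧
      ∀ g : G i, (PushoutI.of i g : PushoutI φ) ∈ N → g ∈ A := by
  have := hfg i
  have hLcf : (L.comap (PushoutI.of i : G i →* PushoutI φ)).FiniteIndex :=
    finiteIndex_comap _ _ hLf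
  induction hA with
  | base => exact ⟨L, hLn, Acc'.base, fun g hg => hg⟩
  | @step A A' hA hs ih =>
    obtain ⟨N, hNn, hN, hNA⟩ := ih
    obtain ⟨r, f, K, hK, hfK⟩ := hs.exists_functionals (hA.fin hLcf)
    have hNf : N.FiniteIndex := hN.fin hLf
    set B : Subgroup (G i) := N.comap (PushoutI.of i : G i →* PushoutI φ) with hB
    have hBA : B ≤ A := fun g hg => hNA g hg
    have hex : ∀ t : Fin r, ∃ N'' : Subgroup (PushoutI φ), Acc' N N'' ∧
        ∀ b (hb : b ∈ B), (PushoutI.of i b : PushoutI φ) ∈ N'' →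
          (K : ℤ) ∣ Multiplicative.toAdd (f t ⟨b, hBA hb⟩) := by
      intro t
      obtain ⟨N', hN', F, v, hv, hF⟩ := h N hNn hN i B (fun g => Iff.rfl)
        ((f t).comp (Subgroup.inclusion hBA))
      obtain ⟨N'', hN'', hmem⟩ := RStep.of_int N' (hN'.fin hNf) F (v * K)
        (mul_ne_zero hv (by exact_mod_cast hK.ne'))
      refine ⟨N'', hN'.step hN'', fun b hb hbN => ?_⟩
      obtain ⟨h1, h2⟩ := hF b hb
      have h3 := (hmem _ h1).mp hbN
      rw [h2] at h3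
      exact (mul_dvd_mul_iff_left hv).mp h3
    choose N'' hN''acc hN''2 using hex
    have hinf : Acc' N (N ⊓ ⨅ t, N'' t) := by
      have key : ∀ S : Finset (Fin r), Acc' N (N ⊓ ⨅ t ∈ S, N'' t) := by
        intro S
        induction S using Finset.induction_on with
        | empty => simpa using Acc'.base
        | insert a S _ ih =>
          have h1 := ih.inf hNf (hN''acc a)
          have h2 : N ⊓ ⨅ t ∈ insert a S, N'' t = (N ⊓ ⨅ t ∈ S, N'' t) ⊓ N'' a := by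
            rw [Finset.iInf_insert]
            rw [inf_comm (N'' a), inf_assoc]
          rw [h2]; exact h1
      have := key Finset.univ
      simpa using this
    refine ⟨(N ⊓ ⨅ t, N'' t).normalCore, inferInstance, hN.trans (hinf.normalCore hNn),
      fun g hg => ?_⟩
    have hg1 := Subgroup.normalCore_le _ hg
    have hgB : g ∈ B := hg1.1
    apply hfK g (hBA hgB)
    intro t
    exact hN''2 t g hgB (Subgroup.mem_iInf.mp hg1.2 t)

end PartH

end Pool.Agent.Helper29
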