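import Mathlib
import Pool.Agent.Helper29.VRC.Basic
import Pool.Agent.Helper29.VRC.Free
import Pool.Agent.Helper29.VRC.Facts
import Pool.Agent.Helper29.VRC.Glue
import Pool.Agent.Helper29.VRC.Main
import Pool.Agent.Helper29.RFRS.Acc
import Pool.Agent.Helper29.RFRS.Func
import Pool.Agent.Helper29.RFRS.FreeAcc
import Pool.Agent.Helper29.RFRS.Cocycle
import Pool.Agent.Helper29.RFRS.Level
import Pool.Agent.Helper29.RFRS.Extend
import Pool.Agent.Helper29.RFRS.Final

set_option autoImplicit false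

namespace Pool.Agent.Helper29

open Monoid

universe u v

section Tools

variable {G : Type*} [Group G]

lemma acc_iInf {κ : Type*} [Finite κ] {L : Subgroup G} (hL : L.FiniteIndex)
    (N : κ → Subgroup G) (h : ∀ t, Acc' L (N t)) : Acc' L (L ⊓ ⨅ t, N t) := by
  classical
  have := Fintype.ofFinite κ
  have key : ∀ S : Finset κ, Acc' L (L ⊓ ⨅ t ∈ S, N t) := by
    intro S
    induction S using Finset.induction_on with
    | empty => simpa using Acc'.base
    | insert a S _ ih =>
      have h1 := ih.inf hL (h a)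
      have h2 : L ⊓ ⨅ t ∈ insert a S, N t = (L ⊓ ⨅ t ∈ S, N t) ⊓ N a := by
        rw [Finset.iInf_insert]
        rw [inf_comm (N a), inf_assoc]
      rw [h2]; exact h1
  have := key Finset.univ
  simpa using this

lemma AccSep.separable_finite [Group.FG G] {B : Subgroup G} [B.Normal] (hB : B.FiniteIndex)
    (h : AccSep B) (a : G) (S : Set G) (hS : S.Finite) :
    ∃ A, Acc' B A ∧ ∀ b ∈ S, b ∉ Subgroup.zpowers a → ∀ l : ℤ, a ^ l * b ∉ A := by
  induction S, hS using Set.Finite.induction_on with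
  | empty => exact ⟨B, Acc'.base, by simp⟩
  | @insert b S _ _ ih =>
    obtain ⟨A, hA, hAS⟩ := ih
    by_cases hb : b ∈ Subgroup.zpowers a
    · refine ⟨A, hA, fun x hx hx1 => ?_⟩
      rcases hx with rfl | hx
      · exact absurd hb hx1
      · exact hAS x hx hx1
    · obtain ⟨A', hA', hA'b⟩ := h.separable' hB a b hb
      refine ⟨A ⊓ A', hA.inf hB hA', fun x hx hx1 k hxN => ?_⟩
      rcases hx with rfl | hx
      · exact hA'b k hxN.2
      · exact hAS x hx hx1 k hxN.1

lemma AccSep.isRFRS [Group.FG G] {L : Subgroup G} (hL : L.FiniteIndex) (h : AccSep L) :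
    IsRFRS L := by
  have h1 : Group.FG L := inferInstance
  have h2 : Countable L := countable_of_fg L h1
  refine isRFRS_of_acc h1 (fun g hg => ?_)
  obtain ⟨M, hM, hgM⟩ := h g g.2 (fun h' => hg (Subtype.ext h'))
  have h3 := hM.comap L.subtype
  have h4 : L.comap L.subtype = ⊤ := by
    ext x; simp
  rw [h4] at h3
  exact ⟨_, h3, hgM⟩

end Tools

section Hyp

variable {ι : Type v} [Nonempty ι] [Finite ι] {C : Type*} [Group C] {G : ι → Type u}
  [∀ i, Group (G i)] {φ : ∀ i, C →* G i}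

/-- Cyclically reduced elements are detected by accessible subgroups. -/
lemma hyperbolic_acc (c : C) (hc : ∀ x, x ∈ Subgroup.zpowers c)
    (hfg : ∀ i, Group.FG (G i)) {L : Subgroup (PushoutI φ)} [hLn : L.Normal]
    (hLf : L.FiniteIndex) (hext : ExtProp φ L)
    (hsep : ∀ i, AccSep (L.comap (PushoutI.of i : G i →* PushoutI φ)))
    (p : ℕ → Σ i, G i) (r : ℕ) (hr : 0 < r)
    (hper : ∀ n, p (n + r) = p n) (hne : ∀ n, (p (n + 1)).1 ≠ (p n).1)
    (hrange : ∀ n, (p n).2 ∉ (φ (p n).1).range) :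
    ∃ M, Acc' L M ∧ pprod φ p 0 r ∉ M := by
  classical
  have := Fintype.ofFinite ι
  have hpermod : ∀ n, p n = p (n % r) := by
    intro n
    induction n using Nat.strong_induction_on with
    | _ n ih =>
      by_cases h : n < r
      · rw [Nat.mod_eq_of_lt h]
      · have h1 : n = (n - r) + r := by omega
        rw [h1, hper, ih (n - r) (by omega), Nat.add_mod_right]
  have hsep' : ∀ i, ∃ A : Subgroup (G i),
      Acc' (L.comap (PushoutI.of i : G i →* PushoutI φ)) A ∧
      ∀ b, (∃ n, p n = ⟨i, b⟩) → ∀ k : ℤ, φ i c ^ k * b ∉ A := by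
    intro i
    have := hfg i
    have hfin : {b : G i | ∃ n, p n = ⟨i, b⟩}.Finite := by
      have h1 : (Set.range p).Finite := by
        apply (Set.finite_range (fun k : Fin r => p k)).subset
        rintro _ ⟨n, rfl⟩
        exact ⟨⟨n % r, Nat.mod_lt _ hr⟩, (hpermod n).symm⟩
      apply h1.preimage (f := Sigma.mk i)
      exact sigma_mk_injective.injOn
    obtain ⟨A, hA, h3⟩ := (hsep i).separable_finite (finiteIndex_comap _ _ hLf) (φ i c) _ hfin
    refine ⟨A, hA, fun b hb k => h3 b hb ?_ k⟩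
    rintro ⟨k, hk⟩
    obtain ⟨n, hn⟩ := hb
    have := hrange n
    rw [hn] at this
    apply this
    exact ⟨c ^ k, by rw [map_zpow]; exact hk⟩
  choose A hA hAb using hsep'
  choose N₁ hN₁n hN₁ hN₁A using fun i => hext.induced hfg hLf i (hA i)
  set N : Subgroup (PushoutI φ) := L ⊓ ⨅ i, N₁ i with hNdef
  have hN : Acc' L N := acc_iInf hLf N₁ hN₁
  have hNn : N.Normal := by
    have : (⨅ i, N₁ i).Normal := Subgroup.normal_iInf_normal hN₁n
    infer_instance
  have hNf : N.FiniteIndex := hN.fin hLf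
  have hNA : ∀ i (g : G i), (PushoutI.of i g : PushoutI φ) ∈ N → g ∈ A i := fun i g hg =>
    hN₁A i g (Subgroup.mem_iInf.mp hg.2 i)
  by_cases hw : pprod φ p 0 r ∈ N
  swap
  · exact ⟨N, hN, hw⟩
  obtain ⟨K, hK, hK2⟩ := exists_freeCoc (φ := φ) c hc (PushoutI φ ⧸ N)
  let ψ : N →* FreeGroup (Cls φ c (PushoutI φ ⧸ N) × ι) := cocHom N hK 1
  let δ : ℕ → (PushoutI φ ⧸ N) := fun n =>
    Nat.rec 1 (fun k w => (PushoutI.of (p k).1 (p k).2 : PushoutI φ) • w) n
  have hδ : ∀ n, δ (n + 1) = (PushoutI.of (p n).1 (p n).2 : PushoutI φ) • δ n := fun _ => rfl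
  have hδne : ∀ n, cls φ c (δ (n + 1)) ≠ cls φ c (δ n) := by
    intro n h
    obtain ⟨k, hk⟩ := cls_eq c _ _ h
    rw [hδ] at hk
    have h1 : ((PushoutI.base φ c) ^ (-k) * PushoutI.of (p n).1 (p n).2) • δ n = δ n := by
      rw [mul_smul, ← hk, ← mul_smul, ← zpow_add]; simp
    have h2 := mem_of_smul_eq N _ h1
    have h3 : (PushoutI.base φ c) ^ (-k) * PushoutI.of (p n).1 (p n).2 =
        (PushoutI.of (p n).1 (φ (p n).1 c ^ (-k) * (p n).2) : PushoutI φ) := by
      rw [map_mul, map_zpow, PushoutI.of_apply_eq_base]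
    rw [h3] at h2
    exact hAb (p n).1 (p n).2 ⟨n, rfl⟩ (-k) (hNA _ _ h2)
  let W : ℕ → List ((Cls φ c (PushoutI φ ⧸ N) × ι) × Bool) := fun n =>
    Nat.rec [] (fun k w => ((cls φ c (δ (k + 1)), (p k).1), true) ::
      ((cls φ c (δ k), (p k).1), false) :: w) n
  have hW : ∀ n, W (n + 1) = ((cls φ c (δ (n + 1)), (p n).1), true) ::
      ((cls φ c (δ n), (p n).1), false) :: W n := fun _ => rfl
  have hred : ∀ n, FreeGroup.IsReduced (W (n + 1)) := by
    intro n
    induction n with
    | zero =>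
      rw [hW]
      show List.IsChain _ _
      have : W 0 = [] := rfl
      rw [this]
      simp only [List.isChain_cons_cons, List.isChain_singleton, and_true]
      intro h
      exact absurd (congrArg Prod.fst h) (hδne 0)
    | succ n ih =>
      rw [hW]
      show List.IsChain _ _
      have ih' : List.IsChain (fun a b : (Cls φ c (PushoutI φ ⧸ N) × ι) × Bool =>
        a.1 = b.1 → a.2 = b.2) (W (n + 1)) := ih
      rw [hW] at ih' ⊢
      rw [List.isChain_cons_cons, List.isChain_cons_cons]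
      refine ⟨?_, ?_, ih'⟩
      · intro h
        exact absurd (congrArg Prod.fst h) (hδne (n + 1))
      · intro h
        exact absurd (congrArg Prod.snd h) (hne n)
  have hpδ : ∀ n, pprod φ p 0 n • (1 : PushoutI φ ⧸ N) = δ n := by
    intro n
    induction n with
    | zero => exact one_smul _ _
    | succ n ih =>
      show (PushoutI.of (p (0 + n)).1 (p (0 + n)).2 * pprod φ p 0 n) • (1 : PushoutI φ ⧸ N) = _
      rw [mul_smul, ih, zero_add]
  have hmain : ∀ n, K (pprod φ p 0 n) 1 = FreeGroup.mk (W n) := by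
    intro n
    induction n with
    | zero =>
      show K 1 1 = _
      rw [hK.one]; rfl
    | succ n ih =>
      show K (PushoutI.of (p (0 + n)).1 (p (0 + n)).2 * pprod φ p 0 n) 1 = _
      rw [hK, hpδ, ih, zero_add, hK2, ← hδ, hW]
      rfl
  obtain ⟨r', hr'⟩ : ∃ r', r = r' + 1 := ⟨r - 1, by omega⟩
  have hne1 : ψ ⟨pprod φ p 0 r, hw⟩ ≠ 1 := by
    show K (pprod φ p 0 r) 1 ≠ 1
    rw [hmain, hr']
    intro h1
    have h2 := congrArg FreeGroup.toWord h1
    rw [FreeGroup.toWord_mk, (hred r').reduce_eq, FreeGroup.toWord_one, hW] at h2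
    simp at h2
  have hfinc : Finite (Cls φ c (PushoutI φ ⧸ N)) := inferInstance
  obtain ⟨M', hM', hM'w⟩ := free_accSep _ hne1
  have h5 := (hM'.comap ψ)
  rw [Subgroup.comap_top] at h5
  refine ⟨_, hN.trans (h5.map_subtype_top N hNf), fun hmem => ?_⟩
  rw [mem_map_subtype_iff] at hmem
  obtain ⟨_, h6⟩ := hmem
  exact hM'w h6

end Hyp

/-- **Main theorem.** The class of virtually RFRS groups is closed under amalgamated products over
cyclic groups. -/
theorem VRFRS_pushout {ι : Type v} [Nonempty ι] [Finite ι] {C : Type*} [Group C] [IsCyclic C]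
    {G : ι → Type u} [∀ i, Group (G i)] (φ : ∀ i, C →* G i)
    (hφ : ∀ i, Function.Injective (φ i)) (hG : ∀ i, VirtuallyRFRS (G i)) :
    VirtuallyRFRS (PushoutI φ) := by
  obtain ⟨c, hc⟩ := IsCyclic.exists_generator (α := C)
  have ho : OrdHyp (fun i => φ i c) := by
    by_cases h : IsOfFinOrder c
    · right
      exact ⟨orderOf c, h.orderOf_pos, fun i => orderOf_injective (φ i) (hφ i) c⟩
    · left
      intro i hi
      exact h ((hφ i).isOfFinOrder_iff.mp hi)
  have hfg : ∀ i, Group.FG (G i) := fun i => (hG i).exists_accSep.1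
  choose B hBn hBf hBs using fun i => (hG i).exists_accSep.2
  have hVRC : ∀ i, VRC (G i) := fun i => (hBs i).vrc (hBf i)
  obtain ⟨L, hLn, hLf, hLB, hext⟩ := exists_Lst hVRC c hc φ ho B hBn hBf
  have hΓfg : Group.FG (PushoutI φ) := pushout_fg φ hfg
  have hsep : ∀ i, AccSep (L.comap (PushoutI.of i : G i →* PushoutI φ)) := fun i =>
    (hBs i).of_le (fun g hg => hLB i g hg) (finiteIndex_comap _ _ hLf)
  refine ⟨L, hLf, AccSep.isRFRS hLf ?_⟩
  intro g hg hg1
  rcases trichotomy g with ⟨i, a, x, rfl⟩ | ⟨p, r, x, hr, hper, hne, hrange, rfl⟩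
  · have ha : (PushoutI.of i a : PushoutI φ) ∈ L := by
      have := hLn.conj_mem _ hg x⁻¹
      simpa [mul_assoc] using this
    have ha1 : a ≠ 1 := by
      rintro rfl
      apply hg1
      simp
    obtain ⟨A, hA, haA⟩ := hsep i a ha ha1
    obtain ⟨N, hNn, hN, hNA⟩ := hext.induced hfg hLf i hA
    refine ⟨N, hN, fun h => haA (hNA a ?_)⟩
    have := hNn.conj_mem _ h x⁻¹
    simpa [mul_assoc] using this
  · obtain ⟨M, hM, hMw⟩ := hyperbolic_acc c hc hfg hLf hext hsep p r hr hper hne hrange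
    refine ⟨M.normalCore, hM.normalCore hLn, fun h => hMw (M.normalCore_le ?_)⟩
    have := M.normalCore_normal.conj_mem _ h x⁻¹
    simpa [mul_assoc] using this

end Pool.Agent.Helper29
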